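import Pool.Agent.N639.VP.P

set_option autoImplicit false

/-! # The denominators of the coefficients -/

namespace Pool.Agent.N639.VP

open Finset
open Pool.Agent.R501.FR

lemma setup {a b s D n₀ m : ℕ} (hb : 2 ≤ b) (hab : Nat.Coprime a b) 
    (hdvd : m ∣ b ^ n₀ * (b ^ ((a ^ 2).totient * D) - 1)) :
    ∃ (Y w u : ℤ), ((b : ℤ) ^ ((a ^ 2).totient * D * a ^ s) - 1) = (a : ℤ) ^ s * Y * w ∧
      (b : ℤ) ^ n₀ * Y = m * u := by
  obtain ⟨g, hg⟩ : ∃ g, g = (a ^ 2).totient := ⟨_, rfl⟩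
  rw [← hg] at hdvd ⊢
  obtain ⟨Y, hY⟩ : ∃ Y : ℤ, Y = (b : ℤ) ^ (g * D) - 1 := ⟨_, rfl⟩
  have haY : (a : ℤ) ∣ Y := by
    have h1 : b ^ g ≡ 1 [MOD a ^ 2] := by
      rw [hg]
      exact Nat.ModEq.pow_totient (hab.symm.pow_right 2)
    have h2 : b ^ (g * D) ≡ 1 [MOD a ^ 2] := by
      rw [pow_mul]
      have := h1.pow D
      rwa [one_pow] at this
    have h3 : b ^ (g * D) ≡ 1 [MOD a] := h2.of_dvd (dvd_pow_self a two_ne_zero)
    have h4 := Nat.modEq_iff_dvd.1 h3.symm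
    rw [hY]
    push_cast at h4
    exact h4
  obtain ⟨w, hw⟩ : (a : ℤ) ^ s * Y ∣ (b : ℤ) ^ (g * D * a ^ s) - 1 := by
    have h1 := pow_dvd a Y haY s
    have h2 : (1 + Y) ^ (a ^ s) - 1 = (b : ℤ) ^ (g * D * a ^ s) - 1 := by
      have e1 : 1 + Y = (b : ℤ) ^ (g * D) := by rw [hY]; ring
      rw [e1, ← pow_mul]
    rwa [h2] at h1
  obtain ⟨u, hu⟩ : (m : ℤ) ∣ b ^ n₀ * Y := by
    have h1 : 1 ≤ b ^ (g * D) := Nat.one_le_pow _ _ (by omega)
    have h2 : ((b ^ n₀ * (b ^ (g * D) - 1) : ℕ) : ℤ) = b ^ n₀ * Y := by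
      rw [hY]
      push_cast [Nat.cast_sub h1]
      ring
    rw [← h2]
    exact_mod_cast hdvd
  exact ⟨Y, w, u, hw, hu⟩

/-- **the denominators** -/
theorem den_bounds {a b n s K D H n₀ m : ℕ} {c : ℤ} (ha : 2 ≤ a) (hb : 2 ≤ b) (hab : Nat.Coprime a b)
    (hD : 1 ≤ D) (hm : 1 ≤ m) (hn1 : K * s + 1 ≤ n) (hn2 : n ≤ (K + 1) * s) (hc : ¬ (a : ℤ) ∣ c)
    (hdvd : m ∣ b ^ n₀ * (b ^ ((a ^ 2).totient * D) - 1)) {h : ℕ} (hh : 1 ≤ h) (hhH : h ≤ H)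
    (z : ℕ) {j : ℕ} (hj1 : 1 ≤ j) (hjK : j ≤ K) :
    ∃ (q : ℕ) (A : ℤ), 0 < q ∧ IsCoprime A (q : ℤ) ∧
      al K (h * c * b ^ n₀ / ((a ^ n * m : ℕ) : ℝ)) (((b : ℤ) ^ ((a ^ 2).totient * D * a ^ s) - 1 : ℤ) : ℝ) z j =
        (A : ℝ) / q ∧
      q ≤ K.factorial * a ^ (n - j * s) ∧
      ∀ L : ℕ, L * H * K.factorial ^ K * (b ^ (a ^ 2).totient - 1) ^ j * D ^ j ≤ 2 ^ (n - 1 - j * s) → L < q := by
  obtain ⟨Y, w, u, hw, hu⟩ := setup (s := s) (D := D) hb hab hdvd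
  obtain ⟨X, hX⟩ : ∃ X : ℤ, X = (b : ℤ) ^ ((a ^ 2).totient * D * a ^ s) - 1 := ⟨_, rfl⟩
  rw [← hX] at hw ⊢
  obtain ⟨I, hI⟩ := NN_mod K X z j hjK
  obtain ⟨N, hN⟩ : ∃ N, N = NN K X z j := ⟨_, rfl⟩
  rw [al_NN K _ X z j hjK, ← hN]
  rw [← hN] at hI
  have hjs : j * s ≤ n := by
    have : j * s ≤ K * s := Nat.mul_le_mul_right s hjK
    omega
  have ha0 : (a : ℝ) ≠ 0 := by
    have : a ≠ 0 := by omega
    exact_mod_cast this
  have hm0 : (m : ℝ) ≠ 0 := by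
    have : m ≠ 0 := by omega
    exact_mod_cast this
  have hK0 : (K.factorial : ℝ) ≠ 0 := by positivity
  obtain ⟨Wd, hWd⟩ : ∃ Wd : ℤ, Wd = K.factorial * (a : ℤ) ^ (n - j * s) := ⟨_, rfl⟩
  have hWd0 : Wd ≠ 0 := by
    rw [hWd]
    have : (a : ℤ) ≠ 0 := by omega
    positivity
  have hWdpos : 0 < Wd := by
    rw [hWd]
    have : (0 : ℤ) < (a : ℤ) := by omega
    positivity
  obtain ⟨W, hW⟩ : ∃ W : ℤ, W = h * c * (u * Y ^ (j - 1) * w ^ j) * N := ⟨_, rfl⟩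
  obtain ⟨α, hα⟩ : ∃ α : ℝ, α = (h : ℝ) * c * b ^ n₀ / ((a ^ n * m : ℕ) : ℝ) * (X : ℝ) ^ j * N / K.factorial := ⟨_, rfl⟩
  rw [← hα]
  -- the value
  have hbX : (b : ℤ) ^ n₀ * X ^ j = m * u * Y ^ (j - 1) * (a : ℤ) ^ (j * s) * w ^ j := by
    have e1 : Y ^ j = Y * Y ^ (j - 1) := by
      rw [← pow_succ']
      congr 1
      omega
    calc (b : ℤ) ^ n₀ * X ^ j = (b : ℤ) ^ n₀ * ((a : ℤ) ^ s * Y * w) ^ j := by rw [hw]
      _ = ((b : ℤ) ^ n₀ * Y) * Y ^ (j - 1) * (a : ℤ) ^ (j * s) * w ^ j := by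
          rw [mul_pow, mul_pow, e1, mul_comm j s, pow_mul]
          ring
      _ = _ := by rw [hu]
  have hval : α = (W : ℝ) / Wd := by
    have h1 : ((b : ℝ) ^ n₀ * (X : ℝ) ^ j) = m * u * Y ^ (j - 1) * (a : ℝ) ^ (j * s) * w ^ j := by
      have := congrArg (fun t : ℤ => (t : ℝ)) hbX
      push_cast at this
      exact this
    have h2 : (a : ℝ) ^ n = (a : ℝ) ^ (n - j * s) * (a : ℝ) ^ (j * s) := by
      rw [← pow_add]
      congr 1
      omega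
    have h3 : α = h * c * ((b : ℝ) ^ n₀ * (X : ℝ) ^ j) * N / (((a ^ n * m : ℕ) : ℝ) * K.factorial) := by
      rw [hα]
      field_simp
    rw [h3, h1, hW, hWd]
    push_cast
    rw [h2]
    field_simp
  obtain ⟨r, hr⟩ : ∃ r : ℚ, r = (W : ℚ) / (Wd : ℚ) := ⟨_, rfl⟩
  have hαr : α = (r : ℝ) := by
    rw [hval, hr]
    push_cast
    rfl
  have hrq : (r : ℝ) = (r.num : ℝ) / r.den := by
    have := Rat.num_div_den r
    exact_mod_cast this.symm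
  refine ⟨r.den, r.num, r.den_pos, ?_, ?_, ?_, ?_⟩
  · have := r.reduced
    rw [Int.isCoprime_iff_nat_coprime]
    simpa using this
  · rw [hαr, hrq]
  · have h1 : ((r.den : ℕ) : ℤ) ∣ Wd := by
      rw [hr]
      have := Rat.den_dvd W Wd
      rwa [Rat.divInt_eq_div] at this
    have h2 := Int.le_of_dvd hWdpos h1
    rw [hWd] at h2
    exact_mod_cast h2
  · intro L hL
    by_contra hcon
    push Not at hcon
    have hq0 : (r.den : ℝ) ≠ 0 := by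
      have := r.den_pos
      positivity
    -- the equation
    have heq : ((r.den : ℕ) : ℤ) * h * c * (b : ℤ) ^ n₀ * X ^ j * N = (a : ℤ) ^ n * (m * K.factorial * r.num) := by
      have h1 : (r.den : ℝ) * α = r.num := by
        rw [hαr, hrq]
        field_simp
      have h2 : (((r.den : ℕ) : ℝ)) * h * c * (b : ℝ) ^ n₀ * (X : ℝ) ^ j * N = (a : ℝ) ^ n * (m * K.factorial * r.num) := by
        rw [← h1, hα]
        push_cast
        field_simp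
      exact_mod_cast h2
    obtain ⟨F, hF⟩ : ∃ F : ℕ, F = K.factorial / j.factorial := ⟨_, rfl⟩
    rw [← hF] at hI
    obtain ⟨R, hR⟩ : ∃ R : ℕ, R = K + 1 - j := ⟨_, rfl⟩
    obtain ⟨G, hG⟩ : N ∣ (F : ℤ) ^ R - (-(X * I)) ^ R := by
      have := sub_dvd_pow_sub_pow (F : ℤ) (-(X * I)) R
      rw [sub_neg_eq_add, ← hI] at this
      exact this
    have hXn : (a : ℤ) ^ n ∣ X ^ (j + R) := by
      have e1 : j + R = K + 1 := by omega
      rw [e1, hw]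
      have h1 : (a : ℤ) ^ n ∣ (a : ℤ) ^ ((K + 1) * s) := pow_dvd_pow _ hn2
      refine h1.trans ⟨(Y * w) ^ (K + 1), ?_⟩
      rw [mul_comm (K + 1) s, pow_mul]
      ring
    have hz : (a : ℤ) ^ n ∣ ((r.den * h * F ^ R : ℕ) : ℤ) * c * (b : ℤ) ^ n₀ * X ^ j := by
      have e1 : ((r.den * h * F ^ R : ℕ) : ℤ) * c * (b : ℤ) ^ n₀ * X ^ j =
          (((r.den : ℕ) : ℤ) * h * c * (b : ℤ) ^ n₀ * X ^ j * N) * G +
          X ^ (j + R) * (((r.den : ℕ) : ℤ) * h * c * (b : ℤ) ^ n₀ * (-I) ^ R) := by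
        have e2 : (F : ℤ) ^ R = N * G + (-(X * I)) ^ R := by linarith
        have e3 : (-(X * I)) ^ R = X ^ R * (-I) ^ R := by
          rw [← mul_pow]
          congr 1
          ring
        push_cast
        rw [e2, e3, pow_add]
        ring
      rw [e1, heq]
      exact dvd_add (Dvd.dvd.mul_right (Dvd.dvd.mul_right dvd_rfl _) _) (Dvd.dvd.mul_right hXn _)
    have hF1 : 1 ≤ F := by
      rw [hF]
      exact Nat.div_pos (Nat.factorial_le hjK) (Nat.factorial_pos j)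
    have hFK : F ≤ K.factorial := by
      rw [hF]
      exact Nat.div_le_self _ _
    have hFR : F ^ R ≤ K.factorial ^ K :=
      (Nat.pow_le_pow_left hFK R).trans (Nat.pow_le_pow_right (Nat.factorial_pos K) (by omega))
    refine lead (a := a) (b := b) (n := n) (k := j) (s := s) (D := D) (L := L * H * K.factorial ^ K) ha hb hab hD ?_ hL hc
      (l := r.den * h * F ^ R) ?_ ?_ n₀ ?_
    · have : j * s ≤ K * s := Nat.mul_le_mul_right s hjK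
      omega
    · exact Nat.mul_pos (Nat.mul_pos r.den_pos (by omega)) (Nat.pow_pos (by omega))
    · exact Nat.mul_le_mul (Nat.mul_le_mul hcon hhH) hFR
    · rw [← hX]
      exact hz

end Pool.Agent.N639.VP
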