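import Pool.Agent.N639.VP.S

set_option autoImplicit false

/-! # Very short orbits of fractions with denominators `a ^ n m` are nearly dense -/

namespace Pool.Agent.N639.VP

open Finset Filter
open Pool.Agent.R501.FR
open Pool.Agent.H332R2.Lit (e)

/-- large `n` -/
lemma big_cbrt (C : ℝ) : ∃ N : ℕ, ∀ n : ℕ, N ≤ n → C ≤ (n : ℝ) ^ ((1 : ℝ) / 3) := by
  have h1 := (tendsto_rpow_atTop (show (0 : ℝ) < 1 / 3 by norm_num)).comp tendsto_natCast_atTop_atTop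
  obtain ⟨N, hN⟩ := eventually_atTop.1 (h1.eventually_ge_atTop C)
  exact ⟨N, fun n hn => hN n hn⟩

lemma cbrt_facts {n : ℕ} {τ w : ℝ} (hτ : τ = (n : ℝ) ^ ((1 : ℝ) / 3)) (hw : w = (n : ℝ) ^ ((2 : ℝ) / 3)) :
    τ ^ 2 = w ∧ τ ^ 3 = n ∧ 0 ≤ τ := by
  have hn : (0 : ℝ) ≤ n := Nat.cast_nonneg n
  refine ⟨?_, ?_, ?_⟩
  · rw [hτ, hw, ← Real.rpow_natCast, ← Real.rpow_mul hn]
    norm_num
  · rw [hτ, ← Real.rpow_natCast, ← Real.rpow_mul hn]
    norm_num
  · rw [hτ]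
    positivity

/-- the choice of the parameters -/
lemma params {R n K s : ℕ} {τ w : ℝ} (hR : 8 ≤ R) (hτ : τ = (n : ℝ) ^ ((1 : ℝ) / 3))
    (hw : w = (n : ℝ) ^ ((2 : ℝ) / 3)) (hbig : 56 * (R : ℝ) ≤ τ) (hK : K = ⌊τ / (2 * R)⌋₊) (hs : s = n / (K + 1) + 1) :
    28 ≤ K ∧ 2048 * K ^ 2 ≤ s ∧ R * K ^ 2 ≤ s ∧ K * s + 1 ≤ n ∧ n ≤ (K + 1) * s ∧ (s : ℝ) ≤ 3 * R * w ∧ w ≤ 2 * s := by
  obtain ⟨h2, h3, h0⟩ := cbrt_facts hτ hw
  have hRR : (8 : ℝ) ≤ R := by exact_mod_cast hR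
  have hR0 : (0 : ℝ) < 2 * R := by linarith
  have hτ1 : (448 : ℝ) ≤ τ := by linarith
  have hK28 : 28 ≤ K := by
    rw [hK]
    apply Nat.le_floor
    rw [le_div_iff₀ hR0]
    push_cast
    linarith
  have hK28R : (28 : ℝ) ≤ K := by exact_mod_cast hK28
  have hKle : (K : ℝ) * (2 * R) ≤ τ := by
    have : (K : ℝ) ≤ τ / (2 * R) := by
      rw [hK]
      exact Nat.floor_le (by positivity)
    rwa [le_div_iff₀ hR0] at this
  have hKgt : τ < ((K : ℝ) + 1) * (2 * R) := by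
    have : τ / (2 * R) < (K : ℝ) + 1 := by
      rw [hK]
      exact Nat.lt_floor_add_one _
    rwa [div_lt_iff₀ hR0] at this
  have hK1τ : (K : ℝ) + 1 ≤ τ := by nlinarith
  -- the number `s`
  have hn2 : n < (K + 1) * s := by
    rw [hs]
    exact Nat.lt_mul_div_succ n (by omega)
  have hn2R : (n : ℝ) < ((K : ℝ) + 1) * s := by exact_mod_cast hn2
  have hsle : (s : ℝ) ≤ n / ((K : ℝ) + 1) + 1 := by
    rw [hs]
    push_cast
    have := @Nat.cast_div_le ℝ _ _ _ n (K + 1)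
    push_cast at this
    linarith
  have hsw : w ≤ s := by
    have h4 : (n : ℝ) < τ * s := lt_of_lt_of_le hn2R (mul_le_mul_of_nonneg_right hK1τ (Nat.cast_nonneg s))
    rw [← h3] at h4
    have h5 : τ * τ ^ 2 < τ * s := by
      calc τ * τ ^ 2 = τ ^ 3 := by ring
        _ < τ * s := h4
    rw [← h2]
    exact (lt_of_mul_lt_mul_left h5 h0).le
  have hKK : (2 * (R : ℝ) * K) ^ 2 ≤ w := by
    rw [← h2]
    apply pow_le_pow_left₀ (by positivity)
    linarith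
  refine ⟨hK28, ?_, ?_, ?_, hn2.le, ?_, by linarith [Nat.cast_nonneg (α := ℝ) s]⟩
  · have h4 : (2048 : ℝ) * (K : ℝ) ^ 2 ≤ s := by
      have h5 : (2048 : ℝ) ≤ 4 * (R : ℝ) ^ 2 * 8 := by nlinarith
      -- `s ≥ n / (K + 1) ≥ n / (2 K)`
      have h6 : (n : ℝ) < 2 * K * s := by
        refine lt_of_lt_of_le hn2R (mul_le_mul_of_nonneg_right ?_ (Nat.cast_nonneg s))
        linarith
      have h7 : (K * (2 * (R : ℝ))) ^ 3 ≤ n := by
        rw [← h3]
        exact pow_le_pow_left₀ (by positivity) hKle 3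
      have h8 : 2 * (K : ℝ) * (4 * (R : ℝ) ^ 3 * (K : ℝ) ^ 2) < 2 * K * s := by
        calc 2 * (K : ℝ) * (4 * (R : ℝ) ^ 3 * (K : ℝ) ^ 2) = (K * (2 * (R : ℝ))) ^ 3 := by ring
          _ < _ := lt_of_le_of_lt h7 h6
      have h9 := (lt_of_mul_lt_mul_left h8 (by positivity)).le
      have h10 : (2048 : ℝ) ≤ 4 * (R : ℝ) ^ 3 := by
        have : (8 : ℝ) ^ 3 ≤ (R : ℝ) ^ 3 := pow_le_pow_left₀ (by norm_num) hRR 3
        norm_num at this
        linarith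
      exact (mul_le_mul_of_nonneg_right h10 (by positivity)).trans h9
    exact_mod_cast h4
  · have h4 : (R : ℝ) * (K : ℝ) ^ 2 ≤ s := by
      have h5 : (R : ℝ) * (K : ℝ) ^ 2 ≤ (2 * (R : ℝ) * K) ^ 2 := by
        have : (2 * (R : ℝ) * K) ^ 2 = (4 * R ^ 2) * (K : ℝ) ^ 2 := by ring
        rw [this]
        apply mul_le_mul_of_nonneg_right _ (by positivity)
        nlinarith
      linarith
    exact_mod_cast h4
  · have h4 : ((K : ℝ) + 1) ^ 2 ≤ n / ((K : ℝ) + 1) * ((K : ℝ) + 1) := by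
      rw [div_mul_cancel₀ _ (by positivity), ← h3]
      calc ((K : ℝ) + 1) ^ 2 ≤ τ ^ 2 := pow_le_pow_left₀ (by positivity) hK1τ 2
        _ ≤ τ ^ 3 := pow_le_pow_right₀ (by linarith) (by norm_num)
    have h5 : (K + 1) * (K + 1) ≤ n := by
      have : (((K + 1) * (K + 1) : ℕ) : ℝ) ≤ n := by
        push_cast
        rw [div_mul_cancel₀ _ (by positivity)] at h4
        linarith
      exact_mod_cast this
    have h6 : K + 1 ≤ n / (K + 1) := (Nat.le_div_iff_mul_le (by omega)).2 h5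
    have h7 : (K + 1) * (n / (K + 1)) ≤ n := Nat.mul_div_le n (K + 1)
    rw [hs]
    generalize n / (K + 1) = r at *
    have e1 : (K + 1) * r = K * r + r := by ring
    have e2 : K * (r + 1) = K * r + K := by ring
    omega
  · have h4 : (n : ℝ) / (K + 1) ≤ 2 * R * w := by
      rw [div_le_iff₀ (by positivity), ← h3, ← h2]
      calc τ ^ 3 = τ * τ ^ 2 := by ring
        _ ≤ (((K : ℝ) + 1) * (2 * R)) * τ ^ 2 := mul_le_mul_of_nonneg_right hKgt.le (by positivity)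
        _ = _ := by ring
    have h5 : 1 ≤ R * w := by
      rw [← h2]
      nlinarith
    linarith

/-- the size condition -/
lemma size_ok {H A K s D : ℕ} {w : ℝ} (hK : 28 ≤ K) (hs : 2048 * K ^ 2 ≤ s) (hws : w ≤ 2 * s) (hA : 1 ≤ A) (hH : 1 ≤ H)
    (hD : 1 ≤ D) (hDw : (D : ℝ) ≤ Real.exp (w / 100)) (h1 : Real.log A ≤ s / 200) (h2 : Real.log H ≤ s / 200) :
    H * K.factorial ^ K * A ^ K * D ^ K ≤ 2 ^ (K * s / 8) := by
  have hKR : (28 : ℝ) ≤ K := by exact_mod_cast hK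
  have hsR : 2048 * (K : ℝ) ^ 2 ≤ s := by exact_mod_cast hs
  have hs1 : (1 : ℝ) ≤ s := by nlinarith
  have hD0 : (0 : ℝ) < D := by exact_mod_cast hD
  have hA0 : (0 : ℝ) < A := by exact_mod_cast hA
  have hH0 : (0 : ℝ) < H := by exact_mod_cast hH
  have hlD : Real.log D ≤ s / 50 := by
    have : Real.log D ≤ w / 100 := by
      rw [← Real.log_exp (w / 100)]
      exact Real.log_le_log hD0 hDw
    linarith
  have hf := log_fac (K := K) (by omega)
  have hf0 : (0 : ℝ) < K.factorial := by positivity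
  have hl2 : 0.69 < Real.log 2 := by
    have := Real.log_two_gt_d9
    linarith
  have hl2' : Real.log 2 < 0.7 := by
    have := Real.log_two_lt_d9
    linarith
  have hlog : Real.log ((H : ℝ) * (K.factorial : ℝ) ^ K * (A : ℝ) ^ K * (D : ℝ) ^ K) ≤ ((K * s / 8 : ℕ) : ℝ) * Real.log 2 := by
    rw [Real.log_mul (by positivity) (by positivity), Real.log_mul (by positivity) (by positivity),
      Real.log_mul (by positivity) (by positivity), Real.log_pow, Real.log_pow, Real.log_pow]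
    have h3 : (K : ℝ) * s / 8 - 1 ≤ ((K * s / 8 : ℕ) : ℝ) := by
      have h4 : K * s ≤ 8 * (K * s / 8) + 7 := by omega
      have h5 : ((K * s : ℕ) : ℝ) ≤ ((8 * (K * s / 8) + 7 : ℕ) : ℝ) := by exact_mod_cast h4
      push_cast at h5
      have h6 : (((K * s) / 8 : ℕ) : ℝ) = ((K * s / 8 : ℕ) : ℝ) := rfl
      linarith
    have h4 : ((K : ℝ) * s / 8 - 1) * Real.log 2 ≤ ((K * s / 8 : ℕ) : ℝ) * Real.log 2 :=
      mul_le_mul_of_nonneg_right h3 (by linarith)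
    have h5 : (K : ℝ) * Real.log K.factorial ≤ K * s / 2048 := by
      have : Real.log K.factorial ≤ s / 2048 := by linarith
      calc (K : ℝ) * Real.log K.factorial ≤ K * (s / 2048) := mul_le_mul_of_nonneg_left this (by linarith)
        _ = _ := by ring
    have h6 : (K : ℝ) * Real.log A ≤ K * s / 200 := by
      calc (K : ℝ) * Real.log A ≤ K * (s / 200) := mul_le_mul_of_nonneg_left h1 (by linarith)
        _ = _ := by ring
    have h7 : (K : ℝ) * Real.log D ≤ K * s / 50 := by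
      calc (K : ℝ) * Real.log D ≤ K * (s / 50) := mul_le_mul_of_nonneg_left hlD (by linarith)
        _ = _ := by ring
    have h8 : (s : ℝ) ≤ K * s := le_mul_of_one_le_left (by linarith) (by linarith)
    have hKs : 28 ≤ (K : ℝ) * s := by nlinarith
    have h9 : ((K : ℝ) * s / 8 - 1) * 0.69 ≤ ((K : ℝ) * s / 8 - 1) * Real.log 2 := by
      apply mul_le_mul_of_nonneg_left hl2.le
      linarith
    refine le_trans ?_ (h9.trans h4)
    linarith
  have hpos : (0 : ℝ) < (H : ℝ) * (K.factorial : ℝ) ^ K * (A : ℝ) ^ K * (D : ℝ) ^ K := by positivity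
  have h3 : (H : ℝ) * (K.factorial : ℝ) ^ K * (A : ℝ) ^ K * (D : ℝ) ^ K ≤ (2 : ℝ) ^ (K * s / 8) := by
    rw [← Real.log_le_log_iff hpos (by positivity), Real.log_pow]
    exact hlog
  exact_mod_cast h3

/-- **very short orbits are nearly dense** -/
theorem dense_short {a b : ℕ} (ha : 2 ≤ a) (hb : 2 ≤ b) (hab : Nat.Coprime a b) (ε : ℝ) (hε : 0 < ε) :
    ∃ (C : ℝ) (N₀ : ℕ), 0 < C ∧ ∀ n : ℕ, N₀ ≤ n → ∀ (c : ℤ) (m n₀ D : ℕ), ¬ (a : ℤ) ∣ c → 1 ≤ m → 1 ≤ D →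
      (n₀ : ℝ) ≤ Real.exp ((n : ℝ) ^ ((2 : ℝ) / 3) / 100) → (D : ℝ) ≤ Real.exp ((n : ℝ) ^ ((2 : ℝ) / 3) / 100) →
      m ∣ b ^ n₀ * (b ^ D - 1) → ∀ y : ℝ,
      ∃ i : ℕ, (i : ℝ) ≤ Real.exp (C * (n : ℝ) ^ ((2 : ℝ) / 3)) ∧
        ∃ z : ℤ, |(b : ℝ) ^ i * (c / ((a ^ n * m : ℕ) : ℝ)) - y - z| < ε := by
  obtain ⟨H₀, κ, hκ, hκ1, hdense⟩ := Pool.Agent.Y943.Fu.dense_of_sums ε hε
  obtain ⟨R₀, hR₀, hsum⟩ := sum_small ha hκ
  obtain ⟨R, hR⟩ : ∃ R, R = R₀ + 8 := ⟨_, rfl⟩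
  obtain ⟨H, hH⟩ : ∃ H, H = H₀ + 1 := ⟨_, rfl⟩
  obtain ⟨g, hg⟩ : ∃ g, g = (a ^ 2).totient := ⟨_, rfl⟩
  have hg0 : 0 < g := by rw [hg]; exact Nat.totient_pos.2 (by positivity)
  obtain ⟨A, hA⟩ : ∃ A, A = b ^ g - 1 := ⟨_, rfl⟩
  have hA1 : 1 ≤ A := by
    have h2 : 2 ≤ b ^ g := hb.trans (Nat.le_self_pow hg0.ne' b)
    omega
  rw [← hg] at hsum
  have haR : (2 : ℝ) ≤ a := by exact_mod_cast ha
  obtain ⟨la, hla⟩ : ∃ la, la = Real.log a := ⟨_, rfl⟩
  have hla0 : 0 < la := by rw [hla]; exact Real.log_pos (by linarith)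
  obtain ⟨N₁, hN₁⟩ := big_cbrt (56 * R)
  obtain ⟨N₂, hN₂⟩ := big_cbrt (400 * (|Real.log A| + |Real.log H|) + 1)
  refine ⟨1 + (1 + g * R) + 27 * R * la, N₁ + N₂, by positivity, fun n hn c m n₀ D hc hm hD hn₀ hDle hdvd y => ?_⟩
  obtain ⟨τ, hτ⟩ : ∃ τ : ℝ, τ = (n : ℝ) ^ ((1 : ℝ) / 3) := ⟨_, rfl⟩
  obtain ⟨w, hw⟩ : ∃ w : ℝ, w = (n : ℝ) ^ ((2 : ℝ) / 3) := ⟨_, rfl⟩
  rw [← hw] at hn₀ hDle ⊢
  have hτ1 : 56 * (R : ℝ) ≤ τ := by rw [hτ]; exact hN₁ n (by omega)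
  have hτ2 : 400 * (|Real.log A| + |Real.log H|) + 1 ≤ τ := by rw [hτ]; exact hN₂ n (by omega)
  obtain ⟨K, hK⟩ : ∃ K : ℕ, K = ⌊τ / (2 * R)⌋₊ := ⟨_, rfl⟩
  obtain ⟨s, hs⟩ : ∃ s : ℕ, s = n / (K + 1) + 1 := ⟨_, rfl⟩
  obtain ⟨p1, p2, p3, p4, p5, p6, p7⟩ := params (by omega) hτ hw hτ1 hK hs
  obtain ⟨h2, h3, h0⟩ := cbrt_facts hτ hw
  have hτ3 : 1 ≤ τ := by
    have := abs_nonneg (Real.log A)
    have := abs_nonneg (Real.log H)
    linarith
  have hw1 : 1 ≤ w := by rw [← h2]; exact one_le_pow₀ hτ3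
  have hτw : τ ≤ w := by rw [← h2]; nlinarith
  have hAH : 400 * (|Real.log A| + |Real.log H|) ≤ 2 * s := by linarith
  have hsize : H * K.factorial ^ K * A ^ K * D ^ K ≤ 2 ^ (K * s / 8) := by
    apply size_ok (w := w) p1 p2 p7 hA1 (by omega) hD hDle
    · have := le_abs_self (Real.log A)
      have := abs_nonneg (Real.log H)
      linarith
    · have := le_abs_self (Real.log H)
      have := abs_nonneg (Real.log A)
      linarith
  obtain ⟨T, hT⟩ : ∃ T, T = R * (a ^ (4 * s)) ^ 2 := ⟨_, rfl⟩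
  have hT1 : 1 ≤ T := by
    rw [hT]
    exact Nat.mul_pos (by omega) (by positivity)
  have hdvd' : m ∣ b ^ n₀ * (b ^ (g * D) - 1) := by
    refine hdvd.trans (Nat.mul_dvd_mul_left _ ?_)
    have := Nat.sub_dvd_pow_sub_pow (b ^ D) 1 g
    rwa [one_pow, ← pow_mul, mul_comm D g] at this
  have h1 := hdense T (fun t => (b : ℝ) ^ (n₀ + g * D * a ^ s * t) * (c / ((a ^ n * m : ℕ) : ℝ))) hT1 (fun h hh hhH => by
    exact hsum b n s K D H T n₀ m c hb hab hD hm p1 (le_trans (Nat.mul_le_mul_right _ (by omega)) p3) p4 p5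
      (by rw [← hA]; exact hsize) (by rw [hT]; exact Nat.mul_le_mul_right _ (by omega)) hc hdvd' h hh (by omega)) y
  obtain ⟨t, ht, z, hz⟩ := h1
  refine ⟨n₀ + g * D * a ^ s * t, ?_, z, hz⟩
  -- the length
  have hla_pow : ∀ k : ℕ, ((a : ℝ)) ^ k = Real.exp (k * la) := by
    intro k
    rw [hla, ← Real.log_pow, Real.exp_log (by positivity)]
  have htT : (t : ℝ) ≤ R * Real.exp (8 * s * la) := by
    have h4 : (t : ℝ) ≤ T := by exact_mod_cast ht.le
    rw [hT] at h4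
    push_cast at h4
    rw [hla_pow, ← Real.exp_nat_mul] at h4
    refine h4.trans (le_of_eq ?_)
    congr 2
    push_cast
    ring
  have hE1 : 1 ≤ Real.exp (9 * s * la) := Real.one_le_exp (by positivity)
  have hmain : (((n₀ + g * D * a ^ s * t : ℕ)) : ℝ) ≤ (1 + g * R) * (Real.exp (w / 100) * Real.exp (9 * s * la)) := by
    push_cast
    rw [hla_pow]
    have h4 : (g : ℝ) * D * Real.exp (s * la) * t ≤ g * Real.exp (w / 100) * Real.exp (s * la) * (R * Real.exp (8 * s * la)) := by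
      apply mul_le_mul _ htT (Nat.cast_nonneg _) (by positivity)
      apply mul_le_mul_of_nonneg_right _ (Real.exp_pos _).le
      exact mul_le_mul_of_nonneg_left hDle (Nat.cast_nonneg _)
    have h5 : Real.exp (s * la) * Real.exp (8 * s * la) = Real.exp (9 * s * la) := by
      rw [← Real.exp_add]
      congr 1
      ring
    have h6 : (n₀ : ℝ) ≤ Real.exp (w / 100) * Real.exp (9 * s * la) :=
      hn₀.trans (le_mul_of_one_le_right (Real.exp_pos _).le hE1)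
    calc (n₀ : ℝ) + g * D * Real.exp (s * la) * t
        ≤ Real.exp (w / 100) * Real.exp (9 * s * la) +
          g * Real.exp (w / 100) * Real.exp (s * la) * (R * Real.exp (8 * s * la)) := add_le_add h6 h4
      _ = Real.exp (w / 100) * Real.exp (9 * s * la) +
          g * R * (Real.exp (w / 100) * (Real.exp (s * la) * Real.exp (8 * s * la))) := by ring
      _ = _ := by rw [h5]; ring
  refine hmain.trans ?_
  have h4 : (1 + (g : ℝ) * R) ≤ Real.exp ((1 + g * R) * w) := by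
    have h5 : (1 + (g : ℝ) * R) ≤ (1 + g * R) * w := le_mul_of_one_le_right (by positivity) hw1
    have h6 := Real.add_one_le_exp ((1 + (g : ℝ) * R) * w)
    linarith
  calc (1 + (g : ℝ) * R) * (Real.exp (w / 100) * Real.exp (9 * s * la))
      ≤ Real.exp ((1 + g * R) * w) * (Real.exp (w / 100) * Real.exp (9 * s * la)) :=
        mul_le_mul_of_nonneg_right h4 (by positivity)
    _ = Real.exp ((1 + g * R) * w + (w / 100 + 9 * s * la)) := by rw [← Real.exp_add, ← Real.exp_add]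
    _ ≤ _ := by
        apply Real.exp_le_exp.2
        have h5 : 9 * (s : ℝ) * la ≤ 27 * R * la * w := by
          calc 9 * (s : ℝ) * la ≤ 9 * (3 * R * w) * la := by gcongr
            _ = _ := by ring
        have h6 : w / 100 ≤ 1 * w := by linarith
        linarith

/-- **dense orbits** -/
theorem dense_orbit {a b : ℕ} (ha : 2 ≤ a) (hb : 2 ≤ b) (hab : Nat.Coprime a b) (x : ℝ)
    (hx : ∀ k : ℕ, ∃ n : ℕ, k ≤ n ∧ ∃ (c : ℤ) (m n₀ D : ℕ), ¬ (a : ℤ) ∣ c ∧ 1 ≤ m ∧ 1 ≤ D ∧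
      (n₀ : ℝ) ≤ Real.exp ((n : ℝ) ^ ((2 : ℝ) / 3) / 100) ∧ (D : ℝ) ≤ Real.exp ((n : ℝ) ^ ((2 : ℝ) / 3) / 100) ∧
      m ∣ b ^ n₀ * (b ^ D - 1) ∧
      |x - c / ((a ^ n * m : ℕ) : ℝ)| ≤ Real.exp (-Real.exp (k * (n : ℝ) ^ ((2 : ℝ) / 3)))) :
    Pool.Agent.Y943.Fu.orb b x = Set.Icc 0 1 := by
  apply Pool.Agent.Y943.Fu.orb_of_fractions
  intro ε hε
  obtain ⟨C, N₀, hC, hN₀⟩ := dense_short ha hb hab ε hε
  have hbR : (2 : ℝ) ≤ b := by exact_mod_cast hb
  obtain ⟨N₁, hN₁⟩ := big_cbrt (1 + Real.log b + |Real.log ε|)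
  obtain ⟨k₀, hk₀⟩ := exists_nat_ge (C + 1)
  obtain ⟨n, hn, c, m, n₀, D, hc, hm, hD, hn₀, hDle, hdvd, hclose⟩ := hx (N₀ + N₁ + k₀)
  obtain ⟨τ, hτ⟩ : ∃ τ : ℝ, τ = (n : ℝ) ^ ((1 : ℝ) / 3) := ⟨_, rfl⟩
  obtain ⟨w, hw⟩ : ∃ w : ℝ, w = (n : ℝ) ^ ((2 : ℝ) / 3) := ⟨_, rfl⟩
  obtain ⟨h2, h3, h0⟩ := cbrt_facts hτ hw
  have hlb : 0 ≤ Real.log b := Real.log_nonneg (by linarith)
  have hτ1 : 1 + Real.log b + |Real.log ε| ≤ τ := by rw [hτ]; exact hN₁ n (by omega)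
  have hle0 := abs_nonneg (Real.log ε)
  have hτ2 : 1 ≤ τ := by linarith
  have hw1 : 1 ≤ w := by rw [← h2]; exact one_le_pow₀ hτ2
  have hτw : τ ≤ w := by rw [← h2]; nlinarith
  rw [← hw] at hclose
  refine ⟨c, a ^ n * m, ⌊Real.exp (C * w)⌋₊, fun i hi => ?_, fun y => ?_⟩
  · have hiE : (i : ℝ) ≤ Real.exp (C * w) := (Nat.le_floor_iff (Real.exp_pos _).le).1 hi
    rw [abs_mul, abs_of_pos (by positivity : (0 : ℝ) < (b : ℝ) ^ i)]
    obtain ⟨E, hE⟩ : ∃ E, E = Real.exp (C * w) := ⟨_, rfl⟩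
    rw [← hE] at hiE
    have hE1 : 1 ≤ E := by rw [hE]; exact Real.one_le_exp (by positivity)
    have h4 : (b : ℝ) ^ i ≤ Real.exp (E * Real.log b) := by
      rw [← Real.rpow_natCast, Real.rpow_def_of_pos (by linarith)]
      apply Real.exp_le_exp.2
      rw [mul_comm]
      exact mul_le_mul_of_nonneg_right hiE hlb
    have h5 : E * (1 + w) ≤ Real.exp (((N₀ + N₁ + k₀ : ℕ) : ℝ) * w) := by
      have h6 : 1 + w ≤ Real.exp w := by
        have := Real.add_one_le_exp w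
        linarith
      calc E * (1 + w) ≤ E * Real.exp w := mul_le_mul_of_nonneg_left h6 (by linarith)
        _ = Real.exp (C * w + w) := by rw [hE, ← Real.exp_add]
        _ ≤ _ := by
            apply Real.exp_le_exp.2
            have h7 : C + 1 ≤ ((N₀ + N₁ + k₀ : ℕ) : ℝ) := by
              push_cast
              have : (0 : ℝ) ≤ N₀ := Nat.cast_nonneg _
              have : (0 : ℝ) ≤ N₁ := Nat.cast_nonneg _
              linarith
            calc C * w + w = (C + 1) * w := by ring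
              _ ≤ _ := mul_le_mul_of_nonneg_right h7 (by linarith)
    calc (b : ℝ) ^ i * |x - c / ((a ^ n * m : ℕ) : ℝ)|
        ≤ Real.exp (E * Real.log b) * Real.exp (-Real.exp (((N₀ + N₁ + k₀ : ℕ) : ℝ) * w)) :=
          mul_le_mul h4 hclose (abs_nonneg _) (Real.exp_pos _).le
      _ = Real.exp (E * Real.log b - Real.exp (((N₀ + N₁ + k₀ : ℕ) : ℝ) * w)) := by
          rw [← Real.exp_add]
          congr 1
      _ < Real.exp (Real.log ε) := by
          apply Real.exp_lt_exp.2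
          have h8 := neg_abs_le (Real.log ε)
          have h9 : E * Real.log b + |Real.log ε| + 1 ≤ E * (1 + w) := by
            have h10 : |Real.log ε| + 1 ≤ E * (|Real.log ε| + 1) := le_mul_of_one_le_left (by linarith) hE1
            have h11 : E * (Real.log b + |Real.log ε| + 1) ≤ E * (1 + w) :=
              mul_le_mul_of_nonneg_left (by linarith) (by linarith)
            linarith
          linarith
      _ = ε := Real.exp_log hε
  · obtain ⟨i, hi, z, hz⟩ := hN₀ n (by omega) c m n₀ D hc hm hD hn₀ hDle hdvd y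
    exact ⟨i, Nat.le_floor (by rw [hw]; exact hi), z, hz⟩

end Pool.Agent.N639.VP
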