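import Pool.Agent.N639.VP.F

set_option autoImplicit false

/-! # Very short orbits of fractions with denominators `a ^ n m` are nearly equidistributed -/

namespace Pool.Agent.N639.VP

open Finset Filter
open Pool.Agent.R501.FR
open Pool.Agent.H332R2.Lit (e)

lemma sum_range_mul' (f : ℕ → ℂ) (q T : ℕ) :
    ∑ x ∈ range (q * T), f x = ∑ t ∈ range T, ∑ r ∈ range q, f (q * t + r) := by
  induction T with
  | zero => simp
  | succ T ih => rw [Nat.mul_succ, Finset.sum_range_add, ih, sum_range_succ]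

lemma norm_sum_le_card (f : ℕ → ℂ) (hf : ∀ i, ‖f i‖ ≤ 1) (S : Finset ℕ) : ‖∑ i ∈ S, f i‖ ≤ S.card := by
  refine (norm_sum_le _ _).trans ?_
  calc ∑ x ∈ S, ‖f x‖ ≤ ∑ _x ∈ S, (1 : ℝ) := sum_le_sum fun x _ => hf x
    _ = S.card := by simp

/-- splitting into progressions -/
lemma split_sum (f : ℕ → ℂ) (hf : ∀ i, ‖f i‖ ≤ 1) (n₀ q T r : ℕ) (hr : r ≤ q) (κ : ℝ)
    (h : ∀ j, ‖∑ t ∈ range T, f (n₀ + q * t + j)‖ ≤ κ * T) :
    ‖∑ i ∈ range (n₀ + q * T + r), f i‖ ≤ n₀ + q + κ * (q * T) := by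
  rw [Finset.sum_range_add, Finset.sum_range_add]
  have h1 : ‖∑ x ∈ range n₀, f x‖ ≤ n₀ := by
    have := norm_sum_le_card f hf (range n₀)
    rwa [card_range] at this
  have h2 : ‖∑ x ∈ range r, f (n₀ + q * T + x)‖ ≤ q := by
    have := norm_sum_le_card (fun x => f (n₀ + q * T + x)) (fun x => hf _) (range r)
    rw [card_range] at this
    exact this.trans (by exact_mod_cast hr)
  have h3 : ‖∑ x ∈ range (q * T), f (n₀ + x)‖ ≤ κ * (q * T) := by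
    rw [sum_range_mul' (fun x => f (n₀ + x)), sum_comm]
    refine (norm_sum_le _ _).trans ?_
    have h4 : ∀ j ∈ range q, ‖∑ t ∈ range T, f (n₀ + (q * t + j))‖ ≤ κ * T := by
      intro j _
      have := h j
      simp only [add_assoc] at this
      exact this
    refine (sum_le_sum h4).trans (le_of_eq ?_)
    rw [sum_const, card_range, nsmul_eq_mul]
    ring
  calc ‖∑ x ∈ range n₀, f x + ∑ x ∈ range (q * T), f (n₀ + x) + ∑ x ∈ range r, f (n₀ + q * T + x)‖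
      ≤ ‖∑ x ∈ range n₀, f x‖ + ‖∑ x ∈ range (q * T), f (n₀ + x)‖ + ‖∑ x ∈ range r, f (n₀ + q * T + x)‖ :=
        (norm_add_le _ _).trans (add_le_add_left (norm_add_le _ _) _)
    _ ≤ _ := by linarith

lemma not_dvd_mul_pow {a b : ℕ} (hab : Nat.Coprime a b) {c : ℤ} (hc : ¬ (a : ℤ) ∣ c) (j : ℕ) :
    ¬ (a : ℤ) ∣ c * (b : ℤ) ^ j := by
  intro h
  apply hc
  have h1 : IsCoprime (a : ℤ) ((b : ℤ) ^ j) := by
    apply IsCoprime.pow_right
    rw [Int.isCoprime_iff_gcd_eq_one]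
    exact_mod_cast hab
  exact h1.dvd_of_dvd_mul_right h

/-- **very short orbits are nearly equidistributed** -/
theorem sums_full {a b : ℕ} (ha : 2 ≤ a) (hb : 2 ≤ b) (hab : Nat.Coprime a b) (κ : ℝ) (hκ : 0 < κ) (H₀ : ℕ) :
    ∃ (C : ℝ) (N₀ : ℕ), 0 < C ∧ ∀ n : ℕ, N₀ ≤ n → ∀ (c : ℤ) (m n₀ D : ℕ), ¬ (a : ℤ) ∣ c → 1 ≤ m → 1 ≤ D →
      (n₀ : ℝ) ≤ Real.exp ((n : ℝ) ^ ((2 : ℝ) / 3) / 100) → (D : ℝ) ≤ Real.exp ((n : ℝ) ^ ((2 : ℝ) / 3) / 100) →
      m ∣ b ^ n₀ * (b ^ D - 1) → ∀ N : ℕ, Real.exp (C * (n : ℝ) ^ ((2 : ℝ) / 3)) ≤ N → ∀ h : ℕ, 1 ≤ h → h ≤ H₀ →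
      ‖∑ i ∈ range N, e ((h : ℝ) * ((b : ℝ) ^ i * (c / ((a ^ n * m : ℕ) : ℝ))))‖ ≤ κ * N := by
  obtain ⟨R₀, hR₀, hsum⟩ := sum_small ha (half_pos hκ)
  obtain ⟨R, hR⟩ : ∃ R, R = R₀ + 8 := ⟨_, rfl⟩
  obtain ⟨H, hH⟩ : ∃ H, H = H₀ + 1 := ⟨_, rfl⟩
  obtain ⟨g, hg⟩ : ∃ g, g = (a ^ 2).totient := ⟨_, rfl⟩
  have hg0 : 0 < g := by rw [hg]; exact Nat.totient_pos.2 (by positivity)
  obtain ⟨A, hA⟩ : ∃ A, A = b ^ g - 1 := ⟨_, rfl⟩
  have hA1 : 1 ≤ A := by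
    have h2 : 2 ≤ b ^ g := hb.trans (Nat.le_self_pow hg0.ne' b)
    omega
  rw [← hg] at hsum
  have haR : (2 : ℝ) ≤ a := by exact_mod_cast ha
  obtain ⟨la, hla⟩ : ∃ la, la = Real.log a := ⟨_, rfl⟩
  have hla0 : 0 < la := by rw [hla]; exact Real.log_pos (by linarith)
  obtain ⟨N₁, hN₁⟩ := big_cbrt (56 * R)
  obtain ⟨N₂, hN₂⟩ := big_cbrt (400 * (|Real.log A| + |Real.log H|) + 1)
  obtain ⟨Q, hQ⟩ : ∃ Q : ℝ, Q = (1 + 2 / κ) * (1 + g * (R + 1)) := ⟨_, rfl⟩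
  have hQ0 : 0 < Q := by rw [hQ]; positivity
  refine ⟨1 + Q + 27 * R * la, N₁ + N₂, by positivity, ?_⟩
  intro n hn c m n₀ D hc hm hD hn₀ hDle hdvd N hN h hh hhH
  obtain ⟨τ, hτ⟩ : ∃ τ : ℝ, τ = (n : ℝ) ^ ((1 : ℝ) / 3) := ⟨_, rfl⟩
  obtain ⟨w, hw⟩ : ∃ w : ℝ, w = (n : ℝ) ^ ((2 : ℝ) / 3) := ⟨_, rfl⟩
  rw [← hw] at hn₀ hDle hN
  have hτ1 : 56 * (R : ℝ) ≤ τ := by rw [hτ]; exact hN₁ n (by omega)
  have hτ2 : 400 * (|Real.log A| + |Real.log H|) + 1 ≤ τ := by rw [hτ]; exact hN₂ n (by omega)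
  obtain ⟨K, hK⟩ : ∃ K : ℕ, K = ⌊τ / (2 * R)⌋₊ := ⟨_, rfl⟩
  obtain ⟨s, hs⟩ : ∃ s : ℕ, s = n / (K + 1) + 1 := ⟨_, rfl⟩
  obtain ⟨p1, p2, p3, p4, p5, p6, p7⟩ := params (by omega) hτ hw hτ1 hK hs
  obtain ⟨h2, h3, h0⟩ := cbrt_facts hτ hw
  have hτ3 : 1 ≤ τ := by
    have := abs_nonneg (Real.log A)
    have := abs_nonneg (Real.log H)
    linarith
  have hw1 : 1 ≤ w := by rw [← h2]; exact one_le_pow₀ hτ3
  have hτw : τ ≤ w := by rw [← h2]; nlinarith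
  have hAH : 400 * (|Real.log A| + |Real.log H|) ≤ 2 * s := by linarith
  have hsize : H * K.factorial ^ K * A ^ K * D ^ K ≤ 2 ^ (K * s / 8) := by
    apply size_ok (w := w) p1 p2 p7 hA1 (by omega) hD hDle
    · have := le_abs_self (Real.log A)
      have := abs_nonneg (Real.log H)
      linarith
    · have := le_abs_self (Real.log H)
      have := abs_nonneg (Real.log A)
      linarith
  have hdvd' : m ∣ b ^ n₀ * (b ^ (g * D) - 1) := by
    refine hdvd.trans (Nat.mul_dvd_mul_left _ ?_)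
    have := Nat.sub_dvd_pow_sub_pow (b ^ D) 1 g
    rwa [one_pow, ← pow_mul, mul_comm D g] at this
  obtain ⟨q, hq⟩ : ∃ q, q = g * D * a ^ s := ⟨_, rfl⟩
  have hq0 : 0 < q := by rw [hq]; positivity
  -- the size of `N`
  have hla_pow : ∀ k : ℕ, ((a : ℝ)) ^ k = Real.exp (k * la) := by
    intro k
    rw [hla, ← Real.log_pow, Real.exp_log (by positivity)]
  obtain ⟨T₀, hT₀⟩ : ∃ T₀, T₀ = R * (a ^ (4 * s)) ^ 2 := ⟨_, rfl⟩
  have hT₀R : (T₀ : ℝ) = R * Real.exp (8 * s * la) := by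
    rw [hT₀]
    push_cast
    rw [hla_pow, ← Real.exp_nat_mul]
    congr 2
    push_cast
    ring
  have hqR : (q : ℝ) ≤ g * Real.exp (w / 100) * Real.exp (s * la) := by
    rw [hq]
    push_cast
    rw [hla_pow]
    apply mul_le_mul_of_nonneg_right _ (Real.exp_pos _).le
    exact mul_le_mul_of_nonneg_left hDle (Nat.cast_nonneg _)
  have hbase : (n₀ : ℝ) + q * (T₀ + 1) ≤ (1 + g * (R + 1)) * (Real.exp (w / 100) * Real.exp (9 * s * la)) := by
    have hE1 : 1 ≤ Real.exp (9 * s * la) := Real.one_le_exp (by positivity)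
    have h6 : (n₀ : ℝ) ≤ Real.exp (w / 100) * Real.exp (9 * s * la) :=
      hn₀.trans (le_mul_of_one_le_right (Real.exp_pos _).le hE1)
    have h7 : (T₀ : ℝ) + 1 ≤ (R + 1) * Real.exp (8 * s * la) := by
      rw [hT₀R]
      have : 1 ≤ Real.exp (8 * s * la) := Real.one_le_exp (by positivity)
      linarith
    have h5 : Real.exp (s * la) * Real.exp (8 * s * la) = Real.exp (9 * s * la) := by
      rw [← Real.exp_add]
      congr 1
      ring
    calc (n₀ : ℝ) + q * (T₀ + 1) ≤ Real.exp (w / 100) * Real.exp (9 * s * la) +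
          (g * Real.exp (w / 100) * Real.exp (s * la)) * ((R + 1) * Real.exp (8 * s * la)) :=
          add_le_add h6 (mul_le_mul hqR h7 (by positivity) (by positivity))
      _ = Real.exp (w / 100) * Real.exp (9 * s * la) +
          g * (R + 1) * (Real.exp (w / 100) * (Real.exp (s * la) * Real.exp (8 * s * la))) := by ring
      _ = _ := by rw [h5]; ring
  have hbig : (1 + 2 / κ) * ((n₀ : ℝ) + q * (T₀ + 1)) ≤ N := by
    refine le_trans ?_ hN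
    calc (1 + 2 / κ) * ((n₀ : ℝ) + q * (T₀ + 1))
        ≤ (1 + 2 / κ) * ((1 + g * (R + 1)) * (Real.exp (w / 100) * Real.exp (9 * s * la))) :=
          mul_le_mul_of_nonneg_left hbase (by positivity)
      _ = Q * (Real.exp (w / 100) * Real.exp (9 * s * la)) := by rw [hQ]; ring
      _ ≤ Real.exp (Q * w) * (Real.exp (w / 100) * Real.exp (9 * s * la)) := by
          apply mul_le_mul_of_nonneg_right _ (by positivity)
          have h5 : Q ≤ Q * w := le_mul_of_one_le_right hQ0.le hw1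
          have h6 := Real.add_one_le_exp (Q * w)
          linarith
      _ = Real.exp (Q * w + (w / 100 + 9 * s * la)) := by rw [← Real.exp_add, ← Real.exp_add]
      _ ≤ _ := by
          apply Real.exp_le_exp.2
          have h5 : 9 * (s : ℝ) * la ≤ 27 * R * la * w := by
            calc 9 * (s : ℝ) * la ≤ 9 * (3 * R * w) * la := by gcongr
              _ = _ := by ring
          have h6 : w / 100 ≤ 1 * w := by linarith
          linarith
  have hbase0 : (0 : ℝ) ≤ (n₀ : ℝ) + q * (T₀ + 1) := by positivity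
  have hN1 : (n₀ : ℝ) + q * (T₀ + 1) ≤ N := by
    have : (1 + 2 / κ) * ((n₀ : ℝ) + q * (T₀ + 1)) = ((n₀ : ℝ) + q * (T₀ + 1)) + 2 / κ * ((n₀ : ℝ) + q * (T₀ + 1)) := by ring
    have h5 : 0 ≤ 2 / κ * ((n₀ : ℝ) + q * (T₀ + 1)) := by positivity
    linarith
  have hN2 : n₀ + q ≤ κ / 2 * N := by
    have h5 : 2 / κ * ((n₀ : ℝ) + q) ≤ N := by
      have h6 : (n₀ : ℝ) + q ≤ (n₀ : ℝ) + q * (T₀ + 1) := by
        have : (0 : ℝ) ≤ q * T₀ := by positivity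
        linarith
      have h7 : 2 / κ * ((n₀ : ℝ) + q) ≤ 2 / κ * ((n₀ : ℝ) + q * (T₀ + 1)) :=
        mul_le_mul_of_nonneg_left h6 (by positivity)
      have : (1 + 2 / κ) * ((n₀ : ℝ) + q * (T₀ + 1)) = ((n₀ : ℝ) + q * (T₀ + 1)) + 2 / κ * ((n₀ : ℝ) + q * (T₀ + 1)) := by ring
      linarith
    rw [div_mul_eq_mul_div, div_le_iff₀ hκ] at h5
    linarith
  have hN1' : n₀ + q * (T₀ + 1) ≤ N := by exact_mod_cast hN1
  obtain ⟨T, hT⟩ : ∃ T, T = (N - n₀) / q := ⟨_, rfl⟩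
  obtain ⟨r, hr⟩ : ∃ r, r = (N - n₀) % q := ⟨_, rfl⟩
  have hNeq : N = n₀ + q * T + r := by
    have := Nat.div_add_mod (N - n₀) q
    rw [← hT, ← hr] at this
    omega
  have hTT : T₀ ≤ T := by
    rw [hT, Nat.le_div_iff_mul_le hq0]
    have : q * (T₀ + 1) = T₀ * q + q := by ring
    omega
  have hrq : r ≤ q := by
    rw [hr]
    exact (Nat.mod_lt _ hq0).le
  have hmain := split_sum (fun i => e ((h : ℝ) * ((b : ℝ) ^ i * (c / ((a ^ n * m : ℕ) : ℝ)))))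
    (fun i => (e_norm ((h : ℝ) * ((b : ℝ) ^ i * (c / ((a ^ n * m : ℕ) : ℝ))))).le) n₀ q T r hrq (κ / 2) (fun j => by
      have h4 := hsum b n s K D H T n₀ m (c * (b : ℤ) ^ j) hb hab hD hm p1
        (le_trans (Nat.mul_le_mul_right _ (by omega)) p3) p4 p5
        (by rw [← hA]; exact hsize) (le_trans (Nat.mul_le_mul_right _ (by omega)) (hT₀ ▸ hTT))
        (not_dvd_mul_pow hab hc j) hdvd' h hh (by omega)
      refine (le_of_eq (congrArg norm ?_)).trans h4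
      apply sum_congr rfl
      intro t _
      congr 1
      rw [hq, pow_add]
      push_cast
      ring)
  rw [← hNeq] at hmain
  refine hmain.trans ?_
  have h5 : (q : ℝ) * T ≤ N := by
    have : q * T ≤ N := by omega
    exact_mod_cast this
  have h6 : κ / 2 * ((q : ℝ) * T) ≤ κ / 2 * N := mul_le_mul_of_nonneg_left h5 (by linarith)
  linarith

end Pool.Agent.N639.VP
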