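import Pool.Agent.N639.VP.F2

set_option autoImplicit false

/-! # Equidistribution along a subsequence -/

namespace Pool.Agent.N639.VP

open Finset Filter Topology
open Pool.Agent.R501.FR
open Pool.Agent.H332R2.Lit (e)

lemma e_sub_le (x y : ℝ) : ‖e x - e y‖ ≤ 2 * Real.pi * |x - y| := by
  have h1 : e x - e y = e y * (Complex.exp (Complex.I * ((2 * Real.pi * (x - y) : ℝ) : ℂ)) - 1) := by
    rw [mul_sub, mul_one]
    congr 1
    rw [e, e, ← Complex.exp_add]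
    congr 1
    push_cast
    ring
  rw [h1, norm_mul, e_norm, one_mul]
  refine (Real.norm_exp_I_mul_ofReal_sub_one_le).trans (le_of_eq ?_)
  rw [Real.norm_eq_abs, abs_mul, abs_of_pos (by positivity : (0 : ℝ) < 2 * Real.pi)]

/-- **equidistribution along a subsequence, one step** -/
theorem equi_step {a b : ℕ} (ha : 2 ≤ a) (hb : 2 ≤ b) (hab : Nat.Coprime a b) (x : ℝ)
    (hx : ∀ k : ℕ, ∃ n : ℕ, k ≤ n ∧ ∃ (c : ℤ) (m n₀ D : ℕ), ¬ (a : ℤ) ∣ c ∧ 1 ≤ m ∧ 1 ≤ D ∧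
      (n₀ : ℝ) ≤ Real.exp ((n : ℝ) ^ ((2 : ℝ) / 3) / 100) ∧ (D : ℝ) ≤ Real.exp ((n : ℝ) ^ ((2 : ℝ) / 3) / 100) ∧
      m ∣ b ^ n₀ * (b ^ D - 1) ∧
      |x - c / ((a ^ n * m : ℕ) : ℝ)| ≤ Real.exp (-Real.exp (k * (n : ℝ) ^ ((2 : ℝ) / 3))))
    (κ : ℝ) (hκ : 0 < κ) (H N₁ : ℕ) :
    ∃ N : ℕ, N₁ ≤ N ∧ 1 ≤ N ∧ ∀ h : ℕ, 1 ≤ h → h ≤ H → ‖∑ i ∈ range N, e ((h : ℝ) * ((b : ℝ) ^ i * x))‖ ≤ κ * N := by
  obtain ⟨C, N₀, hC, hN₀⟩ := sums_full ha hb hab (κ / 2) (half_pos hκ) H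
  have hbR : (2 : ℝ) ≤ b := by exact_mod_cast hb
  have hlb : 0 < Real.log b := Real.log_pos (by linarith)
  obtain ⟨ε, hε⟩ : ∃ ε : ℝ, ε = κ / 2 / (2 * Real.pi * (H + 1)) := ⟨_, rfl⟩
  have hε0 : 0 < ε := by rw [hε]; positivity
  obtain ⟨N₂, hN₂⟩ := big_cbrt (1 + 2 * Real.log b + |Real.log ε| + N₁)
  obtain ⟨k₀, hk₀⟩ := exists_nat_ge (C + 2)
  obtain ⟨n, hn, c, m, n₀, D, hc, hm, hD, hn₀, hDle, hdvd, hclose⟩ := hx (N₀ + N₂ + k₀)
  obtain ⟨τ, hτ⟩ : ∃ τ : ℝ, τ = (n : ℝ) ^ ((1 : ℝ) / 3) := ⟨_, rfl⟩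
  obtain ⟨w, hw⟩ : ∃ w : ℝ, w = (n : ℝ) ^ ((2 : ℝ) / 3) := ⟨_, rfl⟩
  obtain ⟨h2, h3, h0⟩ := cbrt_facts hτ hw
  have hτ1 : 1 + 2 * Real.log b + |Real.log ε| + N₁ ≤ τ := by rw [hτ]; exact hN₂ n (by omega)
  have hle0 := abs_nonneg (Real.log ε)
  have hN₁0 : (0 : ℝ) ≤ N₁ := Nat.cast_nonneg _
  have hτ2 : 1 ≤ τ := by linarith
  have hw1 : 1 ≤ w := by rw [← h2]; exact one_le_pow₀ hτ2
  have hτw : τ ≤ w := by rw [← h2]; nlinarith
  have hmain := hN₀ n (by omega) c m n₀ D hc hm hD hn₀ hDle hdvd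
  rw [← hw] at hclose hmain
  obtain ⟨E, hE⟩ : ∃ E, E = Real.exp ((C + 1) * w) := ⟨_, rfl⟩
  have hEC : Real.exp (C * w) ≤ E := by
    rw [hE]
    apply Real.exp_le_exp.2
    linarith
  have hEw : w ≤ E := by
    have h4 := Real.add_one_le_exp ((C + 1) * w)
    rw [hE]
    have : w ≤ (C + 1) * w := le_mul_of_one_le_left (by linarith) (by linarith)
    linarith
  have hE1 : 1 ≤ E := hw1.trans hEw
  obtain ⟨N, hN⟩ : ∃ N : ℕ, N = ⌈E⌉₊ := ⟨_, rfl⟩
  have hNE : E ≤ N := by rw [hN]; exact Nat.le_ceil E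
  have hNE2 : (N : ℝ) ≤ 2 * E := by
    have := Nat.ceil_lt_add_one (show 0 ≤ E by linarith)
    rw [hN]
    linarith
  refine ⟨N, ?_, ?_, fun h hh hhH => ?_⟩
  · have : (N₁ : ℝ) ≤ N := by linarith
    exact_mod_cast this
  · have : (1 : ℝ) ≤ N := by linarith
    exact_mod_cast this
  · have h4 := hmain N (hEC.trans hNE) h hh hhH
    obtain ⟨y, hy⟩ : ∃ y : ℝ, y = c / ((a ^ n * m : ℕ) : ℝ) := ⟨_, rfl⟩
    rw [← hy] at h4 hclose
    -- the distance
    have hdist : ∀ i ∈ range N, ‖e ((h : ℝ) * ((b : ℝ) ^ i * x)) - e ((h : ℝ) * ((b : ℝ) ^ i * y))‖ ≤ κ / 2 := by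
      intro i hi
      rw [mem_range] at hi
      refine (e_sub_le _ _).trans ?_
      have h5 : (h : ℝ) * ((b : ℝ) ^ i * x) - (h : ℝ) * ((b : ℝ) ^ i * y) = h * ((b : ℝ) ^ i * (x - y)) := by ring
      rw [h5, abs_mul, abs_mul, abs_of_nonneg (Nat.cast_nonneg h), abs_of_pos (by positivity : (0 : ℝ) < (b : ℝ) ^ i)]
      have h6 : (b : ℝ) ^ i ≤ Real.exp (2 * E * Real.log b) := by
        rw [← Real.rpow_natCast, Real.rpow_def_of_pos (by linarith)]
        apply Real.exp_le_exp.2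
        rw [mul_comm]
        apply mul_le_mul_of_nonneg_right _ hlb.le
        have : (i : ℝ) ≤ N := by exact_mod_cast hi.le
        linarith
      have h7 : E * (1 + w) ≤ Real.exp (((N₀ + N₂ + k₀ : ℕ) : ℝ) * w) := by
        have h6 : 1 + w ≤ Real.exp w := by
          have := Real.add_one_le_exp w
          linarith
        calc E * (1 + w) ≤ E * Real.exp w := mul_le_mul_of_nonneg_left h6 (by linarith)
          _ = Real.exp ((C + 1) * w + w) := by rw [hE, ← Real.exp_add]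
          _ ≤ _ := by
              apply Real.exp_le_exp.2
              have h7 : C + 2 ≤ ((N₀ + N₂ + k₀ : ℕ) : ℝ) := by
                push_cast
                have : (0 : ℝ) ≤ N₀ := Nat.cast_nonneg _
                have : (0 : ℝ) ≤ N₂ := Nat.cast_nonneg _
                linarith
              calc (C + 1) * w + w = (C + 2) * w := by ring
                _ ≤ _ := mul_le_mul_of_nonneg_right h7 (by linarith)
      have h8 : (b : ℝ) ^ i * |x - y| ≤ ε := by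
        calc (b : ℝ) ^ i * |x - y| ≤ Real.exp (2 * E * Real.log b) * Real.exp (-Real.exp (((N₀ + N₂ + k₀ : ℕ) : ℝ) * w)) :=
              mul_le_mul h6 hclose (abs_nonneg _) (Real.exp_pos _).le
          _ = Real.exp (2 * E * Real.log b - Real.exp (((N₀ + N₂ + k₀ : ℕ) : ℝ) * w)) := by
              rw [← Real.exp_add]
              congr 1
          _ ≤ Real.exp (Real.log ε) := by
              apply Real.exp_le_exp.2
              have h9 := neg_abs_le (Real.log ε)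
              have h10 : 2 * E * Real.log b + |Real.log ε| ≤ E * (1 + w) := by
                have h11 : |Real.log ε| ≤ E * |Real.log ε| := le_mul_of_one_le_left hle0 hE1
                have h12 : E * (2 * Real.log b + |Real.log ε|) ≤ E * (1 + w) :=
                  mul_le_mul_of_nonneg_left (by linarith) (by linarith)
                linarith
              linarith
          _ = ε := Real.exp_log hε0
      have hhR : (h : ℝ) ≤ H + 1 := by
        have : (h : ℝ) ≤ H := by exact_mod_cast hhH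
        linarith
      calc 2 * Real.pi * ((h : ℝ) * ((b : ℝ) ^ i * |x - y|)) ≤ 2 * Real.pi * ((H + 1) * ε) := by
            apply mul_le_mul_of_nonneg_left _ (by positivity)
            exact mul_le_mul hhR h8 (by positivity) (by positivity)
        _ = κ / 2 := by
            rw [hε]
            field_simp
    have h5 : ∑ i ∈ range N, e ((h : ℝ) * ((b : ℝ) ^ i * x)) =
        ∑ i ∈ range N, e ((h : ℝ) * ((b : ℝ) ^ i * y)) +
        ∑ i ∈ range N, (e ((h : ℝ) * ((b : ℝ) ^ i * x)) - e ((h : ℝ) * ((b : ℝ) ^ i * y))) := by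
      rw [← sum_add_distrib]
      apply sum_congr rfl
      intro i _
      ring
    rw [h5]
    have h6 : ‖∑ i ∈ range N, (e ((h : ℝ) * ((b : ℝ) ^ i * x)) - e ((h : ℝ) * ((b : ℝ) ^ i * y)))‖ ≤ κ / 2 * N := by
      refine (norm_sum_le _ _).trans ((sum_le_sum hdist).trans (le_of_eq ?_))
      rw [sum_const, card_range, nsmul_eq_mul]
      ring
    refine (norm_add_le _ _).trans ?_
    linarith

/-- **equidistribution along a subsequence** -/
theorem equi_seq {a b : ℕ} (ha : 2 ≤ a) (hb : 2 ≤ b) (hab : Nat.Coprime a b) (x : ℝ)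
    (hx : ∀ k : ℕ, ∃ n : ℕ, k ≤ n ∧ ∃ (c : ℤ) (m n₀ D : ℕ), ¬ (a : ℤ) ∣ c ∧ 1 ≤ m ∧ 1 ≤ D ∧
      (n₀ : ℝ) ≤ Real.exp ((n : ℝ) ^ ((2 : ℝ) / 3) / 100) ∧ (D : ℝ) ≤ Real.exp ((n : ℝ) ^ ((2 : ℝ) / 3) / 100) ∧
      m ∣ b ^ n₀ * (b ^ D - 1) ∧
      |x - c / ((a ^ n * m : ℕ) : ℝ)| ≤ Real.exp (-Real.exp (k * (n : ℝ) ^ ((2 : ℝ) / 3)))) :
    ∃ N : ℕ → ℕ, Tendsto N atTop atTop ∧ ∀ h : ℕ, 1 ≤ h →
      Tendsto (fun j => (∑ i ∈ range (N j), e ((h : ℝ) * ((b : ℝ) ^ i * x))) / (N j : ℂ)) atTop (𝓝 0) := by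
  have h1 := fun j : ℕ => equi_step ha hb hab x hx (1 / ((j : ℝ) + 1)) (by positivity) j j
  choose N hN1 hN2 hN3 using h1
  refine ⟨N, tendsto_atTop_mono hN1 tendsto_id, fun h hh => ?_⟩
  rw [tendsto_zero_iff_norm_tendsto_zero]
  refine squeeze_zero' (Eventually.of_forall fun j => norm_nonneg _) ?_ (tendsto_one_div_add_atTop_nhds_zero_nat (𝕜 := ℝ))
  filter_upwards [eventually_ge_atTop h] with j hj
  have h2 := hN3 j h hh hj
  have h3 : (0 : ℝ) < N j := by exact_mod_cast hN2 j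
  rw [norm_div, Complex.norm_natCast, div_le_iff₀ h3]
  exact h2

end Pool.Agent.N639.VP
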