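import Pool.Agent.R501.FR2
import Pool.Agent.Y957.VK.Stm

set_option autoImplicit false

/-! # The coefficients of the shifted phases -/

namespace Pool.Agent.N639.VP

open Finset Polynomial
open Pool.Agent.R501.FR

/-- the coefficients of the shifted falling factorials -/
noncomputable def SC (i j z : ℕ) : ℤ := ((descPochhammer ℤ i).comp (X + C (z : ℤ))).coeff j

lemma SC_gt {i j : ℕ} (h : i < j) (z : ℕ) : SC i j z = 0 := by
  rw [SC]
  apply coeff_eq_zero_of_natDegree_lt
  refine lt_of_le_of_lt natDegree_comp_le ?_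
  rw [descPochhammer_natDegree, natDegree_X_add_C, mul_one]
  exact h

lemma SC_self (i z : ℕ) : SC i i z = 1 := by
  have h1 : ((descPochhammer ℤ i).comp (X + C (z : ℤ))).Monic :=
    (monic_descPochhammer ℤ i).comp (monic_X_add_C _) (by rw [natDegree_X_add_C]; norm_num)
  have h2 : ((descPochhammer ℤ i).comp (X + C (z : ℤ))).natDegree = i := by
    rw [natDegree_comp, descPochhammer_natDegree, natDegree_X_add_C, mul_one]
  rw [SC]
  have h3 := h1.coeff_natDegree
  rw [h2] at h3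
  exact h3

lemma coeff_real (i j z : ℕ) :
    ((descPochhammer ℝ i).comp (X + C (z : ℝ))).coeff j = (SC i j z : ℝ) := by
  rw [SC]
  have h1 : (descPochhammer ℝ i).comp (X + C (z : ℝ)) =
      ((descPochhammer ℤ i).comp (X + C (z : ℤ))).map (Int.castRingHom ℝ) := by
    rw [Polynomial.map_comp, descPochhammer_map]
    simp
  rw [h1, coeff_map]
  simp

/-- the coefficients of the shifted phase -/
noncomputable def al (K : ℕ) (β Y : ℝ) (z j : ℕ) : ℝ := ((pol K β Y).comp (X + C (z : ℝ))).coeff j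

lemma al_eq (K : ℕ) (β Y : ℝ) (z j : ℕ) :
    al K β Y z j = β * ∑ i ∈ range (K + 1), Y ^ i / i.factorial * SC i j z := by
  have hc : (∑ i ∈ range (K + 1), C (Y ^ i / (i.factorial : ℝ)) * descPochhammer ℝ i).comp (X + C (z : ℝ)) =
      ∑ i ∈ range (K + 1), (C (Y ^ i / (i.factorial : ℝ)) * descPochhammer ℝ i).comp (X + C (z : ℝ)) := by
    rw [← coe_compRingHom_apply, map_sum]
    rfl
  rw [al, pol, mul_comp, C_comp, coeff_C_mul, hc, finsetSum_coeff]
  congr 1
  apply sum_congr rfl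
  intro i _
  rw [mul_comp, C_comp, coeff_C_mul, coeff_real]

lemma sum_Icc_one (f : ℕ → ℝ) (K : ℕ) : ∑ j ∈ Icc 1 K, f j = ∑ j ∈ range K, f (j + 1) := by
  induction K with
  | zero => simp
  | succ k ih => rw [Finset.sum_Icc_succ_top (by omega), ih, sum_range_succ]

/-- the phase at `z + x` -/
lemma pol_shift (K : ℕ) (β Y : ℝ) (z : ℕ) (x : ℝ) :
    (pol K β Y).eval ((z : ℝ) + x) = al K β Y z 0 + ∑ j ∈ Icc 1 K, al K β Y z j * x ^ j := by
  have h1 : (pol K β Y).eval ((z : ℝ) + x) = ((pol K β Y).comp (X + C (z : ℝ))).eval x := by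
    rw [eval_comp]
    congr 1
    simp [add_comm]
  have h2 : ((pol K β Y).comp (X + C (z : ℝ))).natDegree < K + 1 := by
    refine lt_of_le_of_lt natDegree_comp_le ?_
    rw [natDegree_X_add_C, mul_one]
    exact Nat.lt_succ_of_le (pol_natDegree K β Y)
  rw [h1, eval_eq_sum_range' h2, sum_range_succ', add_comm]
  congr 1
  · rw [pow_zero, mul_one]
    rfl
  · rw [sum_Icc_one]
    rfl

/-- the integer `K! / j! + Y (…)` -/
noncomputable def NN (K : ℕ) (Y : ℤ) (z j : ℕ) : ℤ :=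
  ∑ i ∈ Icc j K, ((K.factorial / i.factorial : ℕ) : ℤ) * Y ^ (i - j) * SC i j z

lemma al_NN (K : ℕ) (β : ℝ) (Y : ℤ) (z j : ℕ) (hj : j ≤ K) :
    al K β Y z j = β * (Y : ℝ) ^ j * NN K Y z j / K.factorial := by
  have hK : (K.factorial : ℝ) ≠ 0 := by positivity
  rw [al_eq, NN]
  simp only [Int.cast_sum, Int.cast_mul, Int.cast_pow, Int.cast_natCast]
  rw [mul_assoc, mul_div_assoc]
  congr 1
  rw [eq_div_iff hK, sum_mul, mul_sum]
  have h1 : ∑ i ∈ Icc j K, (Y : ℝ) ^ j * (((K.factorial / i.factorial : ℕ) : ℝ) * (Y : ℝ) ^ (i - j) * (SC i j z : ℝ)) =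
      ∑ i ∈ Icc j K, (Y : ℝ) ^ i / i.factorial * (SC i j z : ℝ) * K.factorial := by
    apply sum_congr rfl
    intro i hi
    rw [mem_Icc] at hi
    have hi0 : (i.factorial : ℝ) ≠ 0 := by positivity
    rw [Nat.cast_div (Nat.factorial_dvd_factorial hi.2) hi0]
    have h2 : (Y : ℝ) ^ i = Y ^ j * Y ^ (i - j) := by
      rw [← pow_add]
      congr 1
      omega
    rw [h2]
    field_simp
  have h3 : ∑ i ∈ Icc j K, (Y : ℝ) ^ i / i.factorial * (SC i j z : ℝ) * K.factorial =
      ∑ i ∈ range (K + 1), (Y : ℝ) ^ i / i.factorial * (SC i j z : ℝ) * K.factorial := by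
    apply sum_subset
    · intro i hi
      rw [mem_Icc] at hi
      rw [mem_range]
      omega
    · intro i hi hi'
      rw [mem_range] at hi
      rw [mem_Icc] at hi'
      rw [SC_gt (by omega)]
      simp
  rw [← h3, ← h1]

lemma NN_mod (K : ℕ) (Y : ℤ) (z j : ℕ) (hj : j ≤ K) :
    ∃ I : ℤ, NN K Y z j = ((K.factorial / j.factorial : ℕ) : ℤ) + Y * I := by
  have h1 : NN K Y z j = ((K.factorial / j.factorial : ℕ) : ℤ) +
      ∑ i ∈ Icc (j + 1) K, ((K.factorial / i.factorial : ℕ) : ℤ) * Y ^ (i - j) * SC i j z := by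
    rw [NN]
    have h2 : Icc j K = insert j (Icc (j + 1) K) := by
      ext i
      rw [mem_insert, mem_Icc, mem_Icc]
      omega
    rw [h2, sum_insert (by rw [mem_Icc]; omega), Nat.sub_self, pow_zero, mul_one, SC_self, mul_one]
  refine ⟨∑ i ∈ Icc (j + 1) K, ((K.factorial / i.factorial : ℕ) : ℤ) * Y ^ (i - j - 1) * SC i j z, ?_⟩
  rw [h1, mul_sum]
  congr 1
  apply sum_congr rfl
  intro i hi
  rw [mem_Icc] at hi
  have h2 : Y ^ (i - j) = Y * Y ^ (i - j - 1) := by
    rw [← pow_succ']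
    congr 1
    omega
  rw [h2]
  ring

end Pool.Agent.N639.VP
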