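import Pool.Agent.N639.VP.T2
import Pool.Agent.N639.VP.D

set_option autoImplicit false

/-! # Exponential sums along very short orbits -/

namespace Pool.Agent.N639.VP

open Finset
open Pool.Agent.R501.FR
open Pool.Agent.H332R2.Lit (e)
open Pool.Agent.Y957.VK (TT)

lemma e_norm (x : ℝ) : ‖e x‖ = 1 := by
  rw [e, Complex.norm_exp]
  simp

lemma shift_one (φ : ℕ → ℂ) (hφ : ∀ t, ‖φ t‖ ≤ 1) (T h : ℕ) :
    ‖∑ t ∈ range T, φ t - ∑ t ∈ range T, φ (t + h)‖ ≤ 2 * h := by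
  have h1 := Finset.sum_range_add φ T h
  have h2 := Finset.sum_range_add φ h T
  have h3 : ∑ t ∈ range T, φ (t + h) = ∑ x ∈ range T, φ (h + x) :=
    sum_congr rfl fun x _ => by rw [add_comm]
  have h4 : ∑ t ∈ range T, φ t - ∑ t ∈ range T, φ (t + h) = ∑ x ∈ range h, φ x - ∑ x ∈ range h, φ (T + x) := by
    rw [h3]
    rw [add_comm T h, h2] at h1
    linear_combination -h1
  rw [h4]
  have h5 : ‖∑ x ∈ range h, φ x‖ ≤ h := by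
    refine (norm_sum_le _ _).trans ?_
    calc ∑ x ∈ range h, ‖φ x‖ ≤ ∑ _x ∈ range h, (1 : ℝ) := sum_le_sum fun x _ => hφ x
      _ = h := by simp
  have h6 : ‖∑ x ∈ range h, φ (T + x)‖ ≤ h := by
    refine (norm_sum_le _ _).trans ?_
    calc ∑ x ∈ range h, ‖φ (T + x)‖ ≤ ∑ _x ∈ range h, (1 : ℝ) := sum_le_sum fun x _ => hφ _
      _ = h := by simp
  calc _ ≤ ‖∑ x ∈ range h, φ x‖ + ‖∑ x ∈ range h, φ (T + x)‖ := norm_sub_le _ _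
    _ ≤ 2 * h := by linarith

/-- averaging over the shifts `x y` -/
lemma shift_all (φ : ℕ → ℂ) (hφ : ∀ t, ‖φ t‖ ≤ 1) (T M : ℕ) (hM : 1 ≤ M) (κ : ℝ)
    (h : ∀ t, ‖∑ x ∈ Icc 1 M, ∑ y ∈ Icc 1 M, φ (t + x * y)‖ ≤ κ * (M : ℝ) ^ 2) :
    ‖∑ t ∈ range T, φ t‖ ≤ κ * T + 2 * (M : ℝ) ^ 2 := by
  have hM0 : (1 : ℝ) ≤ M := by exact_mod_cast hM
  have h1 : ‖(M : ℂ) ^ 2 * ∑ t ∈ range T, φ t - ∑ t ∈ range T, ∑ x ∈ Icc 1 M, ∑ y ∈ Icc 1 M, φ (t + x * y)‖ ≤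
      (M : ℝ) ^ 2 * (2 * (M : ℝ) ^ 2) := by
    have h2 : (M : ℂ) ^ 2 * ∑ t ∈ range T, φ t - ∑ t ∈ range T, ∑ x ∈ Icc 1 M, ∑ y ∈ Icc 1 M, φ (t + x * y) =
        ∑ x ∈ Icc 1 M, ∑ y ∈ Icc 1 M, (∑ t ∈ range T, φ t - ∑ t ∈ range T, φ (t + x * y)) := by
      simp only [sum_sub_distrib, sum_const, Nat.card_Icc, Nat.add_sub_cancel, smul_sum, nsmul_eq_mul]
      congr 1
      · rw [mul_sum]
        apply sum_congr rfl
        intro x _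
        ring
      · rw [sum_comm]
        apply sum_congr rfl
        intro x _
        rw [sum_comm]
    rw [h2]
    refine (norm_sum_le _ _).trans ?_
    have h3 : ∀ x ∈ Icc 1 M, ‖∑ y ∈ Icc 1 M, (∑ t ∈ range T, φ t - ∑ t ∈ range T, φ (t + x * y))‖ ≤
        M * (2 * (M : ℝ) ^ 2) := by
      intro x hx
      refine (norm_sum_le _ _).trans ?_
      have h4 : ∀ y ∈ Icc 1 M, ‖∑ t ∈ range T, φ t - ∑ t ∈ range T, φ (t + x * y)‖ ≤ 2 * (M : ℝ) ^ 2 := by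
        intro y hy
        refine (shift_one φ hφ T (x * y)).trans ?_
        rw [mem_Icc] at hx hy
        have h5 : x * y ≤ M * M := Nat.mul_le_mul hx.2 hy.2
        have h6 : ((x * y : ℕ) : ℝ) ≤ ((M * M : ℕ) : ℝ) := by exact_mod_cast h5
        push_cast at h6 ⊢
        nlinarith
      refine (sum_le_sum h4).trans (le_of_eq ?_)
      rw [sum_const, Nat.card_Icc, nsmul_eq_mul, Nat.add_sub_cancel]
    refine (sum_le_sum h3).trans (le_of_eq ?_)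
    rw [sum_const, Nat.card_Icc, nsmul_eq_mul, Nat.add_sub_cancel]
    ring
  have h2 : ‖∑ t ∈ range T, ∑ x ∈ Icc 1 M, ∑ y ∈ Icc 1 M, φ (t + x * y)‖ ≤ T * (κ * (M : ℝ) ^ 2) := by
    refine (norm_sum_le _ _).trans ?_
    refine (sum_le_sum fun t _ => h t).trans (le_of_eq ?_)
    rw [sum_const, card_range, nsmul_eq_mul]
  have h3 : (M : ℝ) ^ 2 * ‖∑ t ∈ range T, φ t‖ ≤ (M : ℝ) ^ 2 * (κ * T + 2 * (M : ℝ) ^ 2) := by
    have h4 : ‖(M : ℂ) ^ 2 * ∑ t ∈ range T, φ t‖ = (M : ℝ) ^ 2 * ‖∑ t ∈ range T, φ t‖ := by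
      rw [norm_mul, norm_pow, Complex.norm_natCast]
    rw [← h4]
    have h5 := norm_add_le ((M : ℂ) ^ 2 * ∑ t ∈ range T, φ t - ∑ t ∈ range T, ∑ x ∈ Icc 1 M, ∑ y ∈ Icc 1 M, φ (t + x * y))
      (∑ t ∈ range T, ∑ x ∈ Icc 1 M, ∑ y ∈ Icc 1 M, φ (t + x * y))
    rw [sub_add_cancel] at h5
    linarith
  exact le_of_mul_le_mul_left h3 (by positivity)

/-- the phases along the orbit are the values of a polynomial -/
lemma phase {a b n s K D n₀ m g : ℕ} {c X Y w u : ℤ} (h : ℕ) (ham : ((a ^ n * m : ℕ) : ℝ) ≠ 0)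
    (hn2 : n ≤ (K + 1) * s) (hX : X = (b : ℤ) ^ (g * D * a ^ s) - 1) (hw : X = (a : ℤ) ^ s * Y * w)
    (hu : (b : ℤ) ^ n₀ * Y = m * u) (t : ℕ) :
    e ((h : ℝ) * ((b : ℝ) ^ (n₀ + g * D * a ^ s * t) * (c / ((a ^ n * m : ℕ) : ℝ)))) =
      e ((pol K (h * c * b ^ n₀ / ((a ^ n * m : ℕ) : ℝ)) (X : ℝ)).eval (t : ℝ)) := by
  obtain ⟨v, hv⟩ := binom_trunc X t K
  have h1 : (b : ℝ) ^ (n₀ + g * D * a ^ s * t) =
      b ^ n₀ * (∑ i ∈ range (K + 1), (t.choose i : ℝ) * (X : ℝ) ^ i + (X : ℝ) ^ (K + 1) * v) := by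
    rw [pow_add, pow_mul]
    congr 1
    have h2 : ((1 + X : ℤ) : ℝ) = (b : ℝ) ^ (g * D * a ^ s) := by rw [hX]; push_cast; ring
    rw [← h2]
    have h3 : (((1 + X) ^ t : ℤ) : ℝ) = ((∑ i ∈ range (K + 1), (t.choose i : ℤ) * X ^ i + X ^ (K + 1) * v : ℤ) : ℝ) := by
      rw [← hv]
      congr 1
      ring
    push_cast at h3 ⊢
    exact h3
  obtain ⟨j, hj⟩ : ∃ j : ℤ, (a : ℤ) ^ n * m * j = b ^ n₀ * X ^ (K + 1) := by
    refine ⟨(a : ℤ) ^ ((K + 1) * s - n) * u * Y ^ K * w ^ (K + 1), ?_⟩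
    have h2 : (a : ℤ) ^ n * (a : ℤ) ^ ((K + 1) * s - n) = (a : ℤ) ^ ((K + 1) * s) := by
      rw [← pow_add]
      congr 1
      omega
    calc (a : ℤ) ^ n * m * ((a : ℤ) ^ ((K + 1) * s - n) * u * Y ^ K * w ^ (K + 1))
        = ((a : ℤ) ^ n * (a : ℤ) ^ ((K + 1) * s - n)) * (m * u) * Y ^ K * w ^ (K + 1) := by ring
      _ = (a : ℤ) ^ ((K + 1) * s) * (b ^ n₀ * Y) * Y ^ K * w ^ (K + 1) := by rw [h2, hu]
      _ = b ^ n₀ * ((a : ℤ) ^ s * Y * w) ^ (K + 1) := by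
          rw [mul_comm (K + 1) s, pow_mul]
          ring
      _ = b ^ n₀ * X ^ (K + 1) := by rw [← hw]
  have hjR : ((a ^ n * m : ℕ) : ℝ) * j = b ^ n₀ * (X : ℝ) ^ (K + 1) := by
    have : (((a : ℤ) ^ n * m * j : ℤ) : ℝ) = ((b ^ n₀ * X ^ (K + 1) : ℤ) : ℝ) := by rw [hj]
    push_cast at this ⊢
    exact this
  have h2 : (h : ℝ) * ((b : ℝ) ^ (n₀ + g * D * a ^ s * t) * (c / ((a ^ n * m : ℕ) : ℝ))) =
      (pol K (h * c * b ^ n₀ / ((a ^ n * m : ℕ) : ℝ)) (X : ℝ)).eval (t : ℝ) + ((h * c * (j * v) : ℤ) : ℝ) := by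
    rw [pol_eval, h1]
    have h3 : (h : ℝ) * (b ^ n₀ * (∑ i ∈ range (K + 1), (t.choose i : ℝ) * (X : ℝ) ^ i + (X : ℝ) ^ (K + 1) * v) *
        (c / ((a ^ n * m : ℕ) : ℝ))) = (h * c * b ^ n₀ / ((a ^ n * m : ℕ) : ℝ)) *
        ∑ i ∈ range (K + 1), (t.choose i : ℝ) * (X : ℝ) ^ i +
        h * c * v * ((b ^ n₀ * (X : ℝ) ^ (K + 1)) / ((a ^ n * m : ℕ) : ℝ)) := by ring
    rw [h3, ← hjR, mul_div_cancel_left₀ _ ham]
    push_cast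
    ring
  rw [h2, Pool.Agent.Y943.Fu.e_add', Pool.Agent.Y943.Fu.e_int', mul_one]

/-- the bilinear sums of the phases -/
lemma bil_eq (K M : ℕ) (β X : ℝ) (t : ℕ) :
    ∑ x ∈ Icc 1 M, ∑ y ∈ Icc 1 M, e ((pol K β X).eval ((t + x * y : ℕ) : ℝ)) =
      e (al K β X t 0) * TT K M (al K β X t) := by
  rw [TT, mul_sum]
  apply sum_congr rfl
  intro x _
  rw [mul_sum]
  apply sum_congr rfl
  intro y _
  have h2 : ((t + x * y : ℕ) : ℝ) = (t : ℝ) + (x : ℝ) * y := by push_cast; ring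
  rw [h2, pol_shift, Pool.Agent.Y943.Fu.e_add']
  congr 1
  rw [e]
  congr 1
  ring

/-- the sizes -/
lemma sizes {b g D H K s n j : ℕ} (hb : 1 ≤ b ^ g - 1) (hD : 1 ≤ D) (hn1 : K * s + 1 ≤ n) (hj : j ≤ K)
    (hj4 : 4 * j ≤ K) (hsize : H * K.factorial ^ K * (b ^ g - 1) ^ K * D ^ K ≤ 2 ^ (K * s / 8)) :
    2 ^ (K * s / 2) * H * K.factorial ^ K * (b ^ g - 1) ^ j * D ^ j ≤ 2 ^ (n - 1 - j * s) := by
  obtain ⟨A, hA⟩ : ∃ A, A = b ^ g - 1 := ⟨_, rfl⟩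
  obtain ⟨Q, hQ⟩ : ∃ Q, Q = K.factorial ^ K := ⟨_, rfl⟩
  rw [← hA] at hb hsize ⊢
  rw [← hQ] at hsize ⊢
  have e1 : A ^ j ≤ A ^ K := Nat.pow_le_pow_right hb hj
  have e2 : D ^ j ≤ D ^ K := Nat.pow_le_pow_right hD hj
  have h4 : 4 * (j * s) ≤ K * s := by
    calc 4 * (j * s) = (4 * j) * s := by ring
      _ ≤ K * s := Nat.mul_le_mul_right s hj4
  have h5 : K * s / 2 + K * s / 8 ≤ n - 1 - j * s := by
    generalize K * s = x at *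
    generalize j * s = y at *
    omega
  calc 2 ^ (K * s / 2) * H * Q * A ^ j * D ^ j
      ≤ 2 ^ (K * s / 2) * H * Q * A ^ K * D ^ K := Nat.mul_le_mul (Nat.mul_le_mul_left _ e1) e2
    _ = 2 ^ (K * s / 2) * (H * Q * A ^ K * D ^ K) := by ring
    _ ≤ 2 ^ (K * s / 2) * 2 ^ (K * s / 8) := Nat.mul_le_mul_left _ hsize
    _ = 2 ^ (K * s / 2 + K * s / 8) := (pow_add _ _ _).symm
    _ ≤ _ := Nat.pow_le_pow_right (by norm_num) h5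

/-- **exponential sums along very short orbits** -/
theorem sum_small {a : ℕ} (ha : 2 ≤ a) {κ : ℝ} (hκ : 0 < κ) : ∃ R : ℕ, 1 ≤ R ∧
    ∀ (b n s K D H T n₀ m : ℕ) (c : ℤ), 2 ≤ b → Nat.Coprime a b → 1 ≤ D → 1 ≤ m → 28 ≤ K → R * K ^ 2 ≤ s →
      K * s + 1 ≤ n → n ≤ (K + 1) * s →
      H * K.factorial ^ K * (b ^ (a ^ 2).totient - 1) ^ K * D ^ K ≤ 2 ^ (K * s / 8) →
      R * (a ^ (4 * s)) ^ 2 ≤ T → ¬ (a : ℤ) ∣ c →
      m ∣ b ^ n₀ * (b ^ ((a ^ 2).totient * D) - 1) → ∀ h : ℕ, 1 ≤ h → h ≤ H →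
      ‖∑ t ∈ range T, e ((h : ℝ) * ((b : ℝ) ^ (n₀ + (a ^ 2).totient * D * a ^ s * t) * (c / ((a ^ n * m : ℕ) : ℝ))))‖ ≤
        κ * T := by
  obtain ⟨R₁, hR₁, htt⟩ := tt_small ha (half_pos hκ)
  obtain ⟨R₂, hR₂⟩ := exists_nat_ge (4 / κ)
  refine ⟨R₁ + R₂, Nat.le_add_right_of_le hR₁, ?_⟩
  intro b n s K D H T n₀ m c hb hab hD hm hK hRs hn1 hn2 hsize hT hc hdvd h hh hhH
  obtain ⟨Y, w, u, hw, hu⟩ := setup (s := s) (D := D) hb hab hdvd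
  have hA1 : 1 ≤ b ^ (a ^ 2).totient - 1 := by
    have h1 : 0 < (a ^ 2).totient := Nat.totient_pos.2 (Nat.pow_pos (by omega))
    have h2 : 2 ≤ b ^ (a ^ 2).totient := hb.trans (Nat.le_self_pow h1.ne' b)
    exact Nat.le_sub_of_add_le h2
  have hden := fun (t : ℕ) {j : ℕ} (h1 : 1 ≤ j) (h2 : j ≤ K) =>
    den_bounds (H := H) ha hb hab hD hm hn1 hn2 hc hdvd hh hhH t h1 h2
  have hph0 := fun (ham : ((a ^ n * m : ℕ) : ℝ) ≠ 0) (X : ℤ)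
    (hX : X = (b : ℤ) ^ ((a ^ 2).totient * D * a ^ s) - 1) (hw : X = (a : ℤ) ^ s * Y * w) =>
    phase (c := c) h ham hn2 hX hw hu
  have hsz := fun {j : ℕ} (h1 : j ≤ K) (h2 : 4 * j ≤ K) => sizes hA1 hD hn1 h1 h2 hsize
  generalize (a ^ 2).totient = g at *
  obtain ⟨X, hX⟩ : ∃ X : ℤ, X = (b : ℤ) ^ (g * D * a ^ s) - 1 := ⟨_, rfl⟩
  rw [← hX] at hw
  have ham : ((a ^ n * m : ℕ) : ℝ) ≠ 0 := by
    have h1 : (0 : ℝ) < a := by exact_mod_cast (by omega : 0 < a)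
    have h2 : (0 : ℝ) < m := by exact_mod_cast hm
    push_cast
    positivity
  have hph := hph0 ham X hX hw
  simp only [← hX] at hden
  generalize (h : ℝ) * c * b ^ n₀ / ((a ^ n * m : ℕ) : ℝ) = β at *
  rw [sum_congr rfl fun t _ => hph t]
  obtain ⟨M, hM⟩ : ∃ M : ℕ, M = a ^ (4 * s) := ⟨_, rfl⟩
  have hM1 : 1 ≤ M := by rw [hM]; exact Nat.one_le_pow _ _ (by omega)
  have hbil : ∀ t, ‖∑ x ∈ Icc 1 M, ∑ y ∈ Icc 1 M, (fun t : ℕ => e ((pol K β (X : ℝ)).eval (t : ℝ))) (t + x * y)‖ ≤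
      κ / 2 * (M : ℝ) ^ 2 := by
    intro t
    have h1 := bil_eq K M β X t
    refine (le_of_eq (congrArg norm h1)).trans ?_
    rw [norm_mul, e_norm, one_mul, hM]
    apply htt K s n hK (le_trans (Nat.mul_le_mul_right _ (Nat.le_add_right _ _)) hRs) hn1 hn2
    intro j hj hj7 hj4
    rw [mem_Icc] at hj
    obtain ⟨q, A, hq, hqA, hval, hqle, hlow⟩ := hden t hj.1 hj.2
    exact ⟨q, A, hq, hqA, hval, hqle, hlow (2 ^ (K * s / 2)) (hsz hj.2 hj4)⟩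
  have h1 := shift_all (fun t : ℕ => e ((pol K β (X : ℝ)).eval (t : ℝ)))
    (fun t => (e_norm ((pol K β (X : ℝ)).eval (t : ℝ))).le) T M hM1 (κ / 2) hbil
  refine h1.trans ?_
  have h2 : 4 / κ * (M : ℝ) ^ 2 ≤ T := by
    rw [← hM] at hT
    have h3 : (((R₁ + R₂) * M ^ 2 : ℕ) : ℝ) ≤ T := Nat.cast_le.2 hT
    push_cast at h3
    have h4 : 4 / κ ≤ (R₁ : ℝ) + R₂ := by
      have : (0 : ℝ) ≤ R₁ := Nat.cast_nonneg _
      linarith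
    exact (mul_le_mul_of_nonneg_right h4 (by positivity)).trans h3
  rw [div_mul_eq_mul_div, div_le_iff₀ hκ] at h2
  linarith

end Pool.Agent.N639.VP
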