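import Pool.Agent.N639.VP.W
import Pool.Agent.N586.RT.Tn
import Pool.Agent.N586.AN.Vm
import Pool.Agent.N704.GN.LineA

set_option autoImplicit false

/-! # The factors for the good indices -/

namespace Pool.Agent.N639.VP

open Finset
open Pool.Agent.Y957.VK (dz mn WJ TT J)

/-- the trivial bound -/
lemma wj_triv {v M j : ℕ} {a l : ℝ} (hv : 1 ≤ v) (hM : 1 ≤ M) (hMl : (M : ℝ) = Real.exp l) :
    WJ v M j a ≤ Real.exp (2 * j * l) * (9 * (v : ℝ) ^ 2) := by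
  have h1 := (Pool.Agent.Y331.VK.wb v M j a hv hM).1
  have hM0 : (1 : ℝ) ≤ M := by exact_mod_cast hM
  have hv0 : (1 : ℝ) ≤ v := by exact_mod_cast hv
  have hMj : (1 : ℝ) ≤ (M : ℝ) ^ j := one_le_pow₀ hM0
  have hV1 : 1 ≤ v * (M : ℝ) ^ j := one_le_mul_of_one_le_of_one_le hv0 hMj
  push_cast at h1
  have h2 : Real.exp (2 * j * l) = ((M : ℝ) ^ j) ^ 2 := by
    rw [hMl, ← Real.exp_nat_mul, ← Real.exp_nat_mul]
    congr 1
    push_cast
    ring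
  calc WJ v M j a ≤ (2 * (v * (M : ℝ) ^ j) + 1) ^ 2 := h1
    _ ≤ (3 * (v * (M : ℝ) ^ j)) ^ 2 := pow_le_pow_left₀ (by linarith) (by linarith) 2
    _ = _ := by rw [h2]; ring

/-- the bound for rational numbers with denominators in a range -/
lemma wj_good {v M j q : ℕ} {A : ℤ} {l g F : ℝ} (hv : 1 ≤ v) (hM : 1 ≤ M) (hMl : (M : ℝ) = Real.exp l)
    (hq : 0 < q) (hA : IsCoprime A (q : ℤ)) (hF : 0 ≤ F) (h1 : Real.exp g ≤ q) (h2 : g ≤ j * l)
    (h3 : (q : ℝ) ≤ F * Real.exp (2 * j * l - g)) :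
    WJ v M j ((A : ℝ) / q) ≤ Real.exp (2 * j * l - g) * ((11 * (v : ℝ) ^ 2 + F) * (1 + Real.log q)) := by
  have h := wj_rat v M j q A hq hA
  have hM0 : (1 : ℝ) ≤ M := by exact_mod_cast hM
  have hv0 : (1 : ℝ) ≤ v := by exact_mod_cast hv
  have hq1 : (1 : ℝ) ≤ q := by exact_mod_cast hq
  have hMj : (1 : ℝ) ≤ (M : ℝ) ^ j := one_le_pow₀ hM0
  have hV1 : 1 ≤ v * (M : ℝ) ^ j := one_le_mul_of_one_le_of_one_le hv0 hMj
  push_cast at h
  obtain ⟨V, hV⟩ : ∃ V : ℝ, V = v * (M : ℝ) ^ j := ⟨_, rfl⟩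
  rw [← hV] at h hV1
  obtain ⟨x, hx⟩ : ∃ x : ℝ, x = 1 + Real.log q := ⟨_, rfl⟩
  rw [← hx] at h ⊢
  have hx1 : 1 ≤ x := by rw [hx]; linarith [Real.log_nonneg hq1]
  have e2 : Real.exp (j * l) = (M : ℝ) ^ j := by
    rw [hMl, ← Real.exp_nat_mul]
  obtain ⟨E, hE⟩ : ∃ E : ℝ, E = Real.exp (2 * j * l - g) := ⟨_, rfl⟩
  rw [← hE] at h3 ⊢
  have hE0 : 0 < E := by rw [hE]; exact Real.exp_pos _
  have hMM : ((M : ℝ) ^ j) ^ 2 = E * Real.exp g := by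
    rw [hE, ← Real.exp_add, ← e2, ← Real.exp_nat_mul]
    congr 1
    push_cast
    ring
  have h4 : V ^ 2 / q ≤ (v : ℝ) ^ 2 * E := by
    rw [div_le_iff₀ (by linarith), hV, mul_pow, hMM]
    have : Real.exp g * ((v : ℝ) ^ 2 * E) ≤ q * ((v : ℝ) ^ 2 * E) := mul_le_mul_of_nonneg_right h1 (by positivity)
    linarith
  have h5 : V ≤ (v : ℝ) ^ 2 * E := by
    have h6 : (M : ℝ) ^ j ≤ E := by
      rw [← e2, hE]
      apply Real.exp_le_exp.2
      linarith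
    have h7 : (v : ℝ) ≤ (v : ℝ) ^ 2 := by nlinarith
    rw [hV]
    exact mul_le_mul h7 h6 (by linarith) (by positivity)
  have hq0 : (0 : ℝ) < q := by linarith
  have h8 : (2 * V / q + 1) * (2 * V + 1 + q * x) ≤ x * (6 * (V ^ 2 / q) + 5 * V + q) := by
    have h9 : (2 * V / q + 1) * (2 * V + 1 + q * x) ≤ (2 * V / q + 1) * (3 * V + q * x) := by
      apply mul_le_mul_of_nonneg_left _ (by positivity)
      linarith
    refine h9.trans ?_
    have h10 : (2 * V / q + 1) * (3 * V + q * x) = 6 * (V ^ 2 / q) + 2 * V * x + 3 * V + q * x := by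
      field_simp
      ring
    rw [h10]
    have h11 : 0 ≤ V ^ 2 / q := by positivity
    nlinarith
  calc WJ v M j ((A : ℝ) / q) ≤ _ := h
    _ ≤ x * (6 * (V ^ 2 / q) + 5 * V + q) := h8
    _ ≤ x * (6 * ((v : ℝ) ^ 2 * E) + 5 * ((v : ℝ) ^ 2 * E) + F * E) := by
        apply mul_le_mul_of_nonneg_left _ (by linarith)
        linarith
    _ = _ := by ring

/-- the number of the good indices -/
lemma card_good {K : ℕ} (hK : 17 ≤ K) :
    (K : ℝ) / 14 ≤ (((Icc 1 K).filter fun j => K ≤ 7 * j ∧ 4 * j ≤ K).card : ℝ) := by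
  have h1 : Icc ((K + 6) / 7) (K / 4) ⊆ (Icc 1 K).filter fun j => K ≤ 7 * j ∧ 4 * j ≤ K := by
    intro j hj
    rw [mem_Icc] at hj
    rw [mem_filter, mem_Icc]
    omega
  have h2 := card_le_card h1
  rw [Nat.card_Icc] at h2
  have h3 : K ≤ 14 * (K / 4 + 1 - (K + 6) / 7) := by omega
  have h4 : K ≤ 14 * ((Icc 1 K).filter fun j => K ≤ 7 * j ∧ 4 * j ≤ K).card := h3.trans (by omega)
  rw [div_le_iff₀ (by norm_num)]
  have h5 : (K : ℝ) ≤ ((14 * ((Icc 1 K).filter fun j => K ≤ 7 * j ∧ 4 * j ≤ K).card : ℕ) : ℝ) := by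
    exact_mod_cast h4
  push_cast at h5
  linarith

lemma pow_le_exp {K L₀ : ℕ} (hK : 1 ≤ K) : (1 - 1 / (K : ℝ)) ^ (L₀ * K) ≤ Real.exp (-L₀) := by
  have hK0 : (1 : ℝ) ≤ K := by exact_mod_cast hK
  have h1 : 1 - 1 / (K : ℝ) ≤ Real.exp (-(1 / (K : ℝ))) := by
    have := Real.add_one_le_exp (-(1 / (K : ℝ)))
    linarith
  have h2 : 0 ≤ 1 - 1 / (K : ℝ) := by
    rw [sub_nonneg, div_le_one (by linarith)]
    exact hK0
  calc (1 - 1 / (K : ℝ)) ^ (L₀ * K) ≤ (Real.exp (-(1 / (K : ℝ)))) ^ (L₀ * K) := pow_le_pow_left₀ h2 h1 _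
    _ = Real.exp (-L₀) := by
        rw [← Real.exp_nat_mul]
        congr 1
        push_cast
        field_simp

end Pool.Agent.N639.VP
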