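import Pool.Agent.Y331.VK.WB

set_option autoImplicit false

/-! # The factors `WJ` for rational numbers -/

namespace Pool.Agent.N639.VP

open Finset
open Pool.Agent.Y957.VK (dz mn WJ)

/-- the majorant on residues -/
noncomputable def FF (V q r : ℕ) : ℝ :=
  if r = 0 then 2 * V + 1 else (q : ℝ) / 2 * (1 / r + 1 / (q - r : ℕ))

lemma dz_rat {q : ℕ} (hq : 0 < q) (y : ℤ) (r : ℕ) (hr : r < q) (h : y % q = r) :
    dz ((y : ℝ) / q) = min ((r : ℝ) / q) ((q - r : ℕ) / q) := by
  have hq' : (0 : ℝ) < q := by exact_mod_cast hq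
  rw [dz, abs_sub_round_eq_min]
  have h1 : Int.fract ((y : ℝ) / q) = (r : ℝ) / q := by
    rw [Int.fract_eq_iff]
    refine ⟨by positivity, ?_, y / q, ?_⟩
    · rw [div_lt_one hq']
      exact_mod_cast hr
    · have h2 : (y : ℝ) = q * ((y / (q : ℤ) : ℤ) : ℝ) + r := by
        have h3 := Int.mul_ediv_add_emod y q
        rw [h] at h3
        have h4 : ((q : ℤ) * (y / q) + (r : ℤ) : ℤ) = y := h3
        have : ((((q : ℤ) * (y / q) + (r : ℤ) : ℤ)) : ℝ) = (y : ℝ) := by rw [h4]
        push_cast at this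
        linarith
      rw [h2]
      field_simp
      ring
  rw [h1]
  congr 1
  rw [Nat.cast_sub hr.le]
  field_simp

lemma mn_rat {q : ℕ} (hq : 0 < q) (V : ℕ) (y : ℤ) (r : ℕ) (hr : r < q) (h : y % q = r) :
    mn V ((y : ℝ) / q) ≤ FF V q r := by
  have hq' : (0 : ℝ) < q := by exact_mod_cast hq
  rw [FF]
  split_ifs with h0
  · exact Pool.Agent.Y331.VK.mn_le V _
  · have hr0 : (0 : ℝ) < r := by exact_mod_cast Nat.pos_of_ne_zero h0
    have hqr : (0 : ℝ) < ((q - r : ℕ) : ℝ) := by exact_mod_cast Nat.sub_pos_of_lt hr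
    have h1 := dz_rat hq y r hr h
    have h2 : 0 < dz ((y : ℝ) / q) := by
      rw [h1]
      exact lt_min (by positivity) (by positivity)
    rw [mn, if_neg h2.ne']
    refine (min_le_right _ _).trans ?_
    rw [h1]
    rcases min_cases ((r : ℝ) / q) (((q - r : ℕ) : ℝ) / q) with ⟨h3, -⟩ | ⟨h3, -⟩
    · rw [h3]
      have : 1 / (2 * ((r : ℝ) / q)) = (q : ℝ) / 2 * (1 / r) := by field_simp
      rw [this]
      apply mul_le_mul_of_nonneg_left _ (by positivity)
      have : (0 : ℝ) ≤ 1 / (q - r : ℕ) := by positivity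
      linarith
    · rw [h3]
      have : 1 / (2 * (((q - r : ℕ) : ℝ) / q)) = (q : ℝ) / 2 * (1 / (q - r : ℕ)) := by field_simp
      rw [this]
      apply mul_le_mul_of_nonneg_left _ (by positivity)
      have : (0 : ℝ) ≤ 1 / (r : ℝ) := by positivity
      linarith

lemma sum_FF {q : ℕ} (hq : 0 < q) (V : ℕ) :
    ∑ r ∈ range q, FF V q r ≤ 2 * V + 1 + q * (1 + Real.log q) := by
  obtain ⟨k, rfl⟩ : ∃ k, q = k + 1 := ⟨q - 1, by omega⟩
  rw [sum_range_succ']
  have h0 : FF V (k + 1) 0 = 2 * V + 1 := by simp [FF]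
  rw [h0]
  have h1 : ∑ r ∈ range k, FF V (k + 1) (r + 1) =
      ((k + 1 : ℕ) : ℝ) / 2 * (∑ r ∈ range k, 1 / ((r : ℝ) + 1) + ∑ r ∈ range k, 1 / ((k - r : ℕ) : ℝ)) := by
    rw [← sum_add_distrib, mul_sum]
    apply sum_congr rfl
    intro r _
    rw [FF, if_neg (by omega)]
    have : k + 1 - (r + 1) = k - r := by omega
    rw [this]
    push_cast
    ring
  have h2 : ∑ r ∈ range k, 1 / ((k - r : ℕ) : ℝ) = ∑ r ∈ range k, 1 / ((r : ℝ) + 1) := by
    rw [← sum_range_reflect (fun r => 1 / ((r : ℝ) + 1)) k]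
    apply sum_congr rfl
    intro r hr
    rw [mem_range] at hr
    congr 1
    have : k - r = (k - 1 - r) + 1 := by omega
    rw [this]
    push_cast
    ring
  have h3 : ∑ r ∈ range k, 1 / ((r : ℝ) + 1) ≤ 1 + Real.log (k + 1 : ℕ) := by
    have h4 := harmonic_le_one_add_log k
    have h5 : (harmonic k : ℝ) = ∑ r ∈ range k, 1 / ((r : ℝ) + 1) := by
      rw [harmonic]
      push_cast
      apply sum_congr rfl
      intro r _
      rw [one_div]
    rw [h5] at h4
    refine h4.trans ?_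
    have h6 : Real.log (k : ℝ) ≤ Real.log ((k + 1 : ℕ) : ℝ) := by
      rcases Nat.eq_zero_or_pos k with rfl | hk
      · simp
      · apply Real.log_le_log (by exact_mod_cast hk)
        push_cast
        linarith
    linarith
  rw [h1, h2]
  have h7 : (0 : ℝ) ≤ ((k + 1 : ℕ) : ℝ) := Nat.cast_nonneg _
  nlinarith

lemma card_res {q : ℕ} (hq : 0 < q) (V : ℕ) (A : ℤ) (hA : IsCoprime A (q : ℤ)) (r : ℕ) :
    (((Icc (-(V : ℤ)) V).filter fun u => (u * A) % q = r).card : ℝ) ≤ 2 * V / q + 1 := by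
  have hq' : (0 : ℝ) < q := by exact_mod_cast hq
  have h1 : ((Icc (-(V : ℤ)) V).filter fun u => (u * A) % q = r).card ≤ (range (2 * V / q + 1)).card := by
    apply card_le_card_of_injOn (fun u : ℤ => ((u + V) / q).toNat)
    · intro u hu
      rw [mem_coe, mem_filter, mem_Icc] at hu
      rw [mem_coe, mem_range]
      have h2 : 0 ≤ (u + V) / (q : ℤ) := Int.ediv_nonneg (by linarith [hu.1.1]) (by positivity)
      have h3 : (u + V) / (q : ℤ) ≤ ((2 * V / q : ℕ) : ℤ) := by
        push_cast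
        exact Int.ediv_le_ediv (by exact_mod_cast hq) (by linarith [hu.1.2])
      have h4 : (((u + V) / (q : ℤ)).toNat : ℤ) = (u + V) / (q : ℤ) := Int.toNat_of_nonneg h2
      have h5 : (((u + V) / (q : ℤ)).toNat : ℤ) ≤ ((2 * V / q : ℕ) : ℤ) := by rw [h4]; exact h3
      have h6 : ((u + V) / (q : ℤ)).toNat ≤ 2 * V / q := by exact_mod_cast h5
      exact Nat.lt_succ_of_le h6
    · intro u hu u' hu' huu
      rw [mem_coe, mem_filter, mem_Icc] at hu hu'
      have h2 : 0 ≤ (u + V) / (q : ℤ) := Int.ediv_nonneg (by linarith [hu.1.1]) (by positivity)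
      have h2' : 0 ≤ (u' + V) / (q : ℤ) := Int.ediv_nonneg (by linarith [hu'.1.1]) (by positivity)
      have h3 : (u + V) / (q : ℤ) = (u' + V) / (q : ℤ) := by
        have := congrArg (fun n : ℕ => (n : ℤ)) huu
        simp only [Int.toNat_of_nonneg h2, Int.toNat_of_nonneg h2'] at this
        exact this
      have h4 : (q : ℤ) ∣ (u * A - u' * A) := by
        apply Int.ModEq.dvd
        exact (hu'.2.trans hu.2.symm)
      have h5 : (q : ℤ) ∣ (u - u') := by
        rw [← sub_mul] at h4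
        exact (hA.symm).dvd_of_dvd_mul_right h4
      have h6 : (u + V) % (q : ℤ) = (u' + V) % (q : ℤ) := by
        apply Int.ModEq.symm
        rw [Int.modEq_iff_dvd]
        have : u + V - (u' + V) = u - u' := by ring
        rw [this]
        exact h5
      have h7 := Int.mul_ediv_add_emod (u + V) q
      have h8 := Int.mul_ediv_add_emod (u' + V) q
      rw [h3, h6] at h7
      linarith
  rw [card_range] at h1
  have h2 : ((2 * V / q + 1 : ℕ) : ℝ) ≤ 2 * V / q + 1 := by
    push_cast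
    have := @Nat.cast_div_le ℝ _ _ _ (2 * V) q
    push_cast at this
    linarith
  exact (by exact_mod_cast h1 : (((Icc (-(V : ℤ)) V).filter fun u => (u * A) % q = r).card : ℝ) ≤
    ((2 * V / q + 1 : ℕ) : ℝ)).trans h2

theorem wj_rat (s M j q : ℕ) (A : ℤ) (hq : 0 < q) (hA : IsCoprime A (q : ℤ)) :
    WJ s M j ((A : ℝ) / q) ≤ (2 * (s * M ^ j : ℕ) / q + 1) *
      (2 * (s * M ^ j : ℕ) + 1 + q * (1 + Real.log q)) := by
  have hq' : (0 : ℝ) < q := by exact_mod_cast hq
  rw [WJ]
  obtain ⟨V, hV⟩ : ∃ V, V = s * M ^ j := ⟨_, rfl⟩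
  rw [← hV]
  have h1 : ∀ u : ℤ, mn V ((A : ℝ) / q * u) ≤ FF V q ((u * A) % q).toNat := by
    intro u
    have h2 : (A : ℝ) / q * u = (((u * A : ℤ)) : ℝ) / q := by
      push_cast
      ring
    rw [h2]
    have h3 : 0 ≤ (u * A) % (q : ℤ) := Int.emod_nonneg _ (by omega)
    have h4 : (u * A) % (q : ℤ) < q := Int.emod_lt_of_pos _ (by omega)
    apply mn_rat hq V (u * A) ((u * A) % q).toNat
    · omega
    · omega
  refine (sum_le_sum fun u _ => h1 u).trans ?_
  have hmaps : ∀ u ∈ Icc (-(V : ℤ)) V, ((u * A) % (q : ℤ)).toNat ∈ range q := by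
    intro u _
    have h4 : (u * A) % (q : ℤ) < q := Int.emod_lt_of_pos _ (by omega)
    have h3 : 0 ≤ (u * A) % (q : ℤ) := Int.emod_nonneg _ (by omega)
    rw [mem_range]
    omega
  rw [← sum_fiberwise_of_maps_to hmaps]
  have h5 : ∀ r ∈ range q, ∑ u ∈ (Icc (-(V : ℤ)) V).filter (fun u => ((u * A) % (q : ℤ)).toNat = r),
      FF V q ((u * A) % q).toNat ≤ (2 * V / q + 1) * FF V q r := by
    intro r hr
    have hF : 0 ≤ FF V q r := by
      rw [FF]
      split_ifs <;> positivity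
    rw [sum_congr rfl (fun u hu => by rw [(mem_filter.1 hu).2]), sum_const, nsmul_eq_mul]
    apply mul_le_mul_of_nonneg_right _ hF
    have h6 : ((Icc (-(V : ℤ)) V).filter (fun u => ((u * A) % (q : ℤ)).toNat = r)) =
        ((Icc (-(V : ℤ)) V).filter fun u => (u * A) % q = r) := by
      apply filter_congr
      intro u _
      have h3 : 0 ≤ (u * A) % (q : ℤ) := Int.emod_nonneg _ (by omega)
      omega
    rw [h6]
    exact card_res hq V A hA r
  refine (sum_le_sum h5).trans ?_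
  rw [← mul_sum]
  apply mul_le_mul_of_nonneg_left (sum_FF hq V) (by positivity)

end Pool.Agent.N639.VP
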